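import Pool.Agent.PG.Exist

set_option autoImplicit false

/-!
Bounded torsion when all rows are finite.
-/

namespace Pool.Agent.PG

open MulAction
open scoped commutatorElement

variable {G X : Type*} [Group G] [MulAction G X]

/-- In a row with at most `m` points the power `n^(m!)` acts trivially. -/
theorem pow_factorial_smul (N : Subgroup G) (x : X) (hfin : (orbit N x).Finite) (m : ℕ)
    (hm : (orbit N x).ncard ≤ m) (n : G) (hn : n ∈ N) (r : ℕ) (hr : m.factorial ∣ r) :
    n ^ r • x = x := by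
  classical
  have h1 : ∃ i j : ℕ, i < j ∧ j ≤ m ∧ n ^ i • x = n ^ j • x := by
    by_contra hne
    push Not at hne
    have hinj : Set.InjOn (fun i : ℕ => n ^ i • x) (Set.Iic m) := by
      intro i hi j hj hij
      simp only [Set.mem_Iic] at hi hj
      rcases lt_trichotomy i j with h | h | h
      · exact absurd hij (hne i j h hj)
      · exact h
      · exact absurd hij.symm (hne j i h hi)
    have hsub : (fun i : ℕ => n ^ i • x) '' Set.Iic m ⊆ orbit N x := by
      rintro _ ⟨i, _, rfl⟩
      exact ⟨⟨n ^ i, N.pow_mem hn i⟩, rfl⟩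
    have h2 := Set.ncard_le_ncard hsub hfin
    rw [hinj.ncard_image] at h2
    have h3 : (Set.Iic m).ncard = m + 1 := by
      rw [← Finset.coe_Iic, Set.ncard_coe_finset, Nat.card_Iic]
    omega
  obtain ⟨i, j, hij, hjm, h⟩ := h1
  have h4 : n ^ (j - i) • x = x := by
    have h5 : n ^ j • x = n ^ i • n ^ (j - i) • x := by
      rw [← mul_smul, ← pow_add]
      congr 2
      omega
    rw [h5] at h
    exact (smul_left_cancel _ h).symm
  have h6 : (j - i) ∣ r :=
    (Nat.dvd_factorial (by omega) (by omega : j - i ≤ m)).trans hr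
  obtain ⟨q, rfl⟩ := h6
  rw [pow_mul]
  have h7 : n ^ (j - i) ∈ stabilizer G x := h4
  exact Subgroup.pow_mem _ h7 q

theorem orbit_smul_eq (N : Subgroup G) [hN : N.Normal] (h : G) (d : X) :
    orbit N (h • d) = (fun x => h • x) '' orbit N d := by
  ext x
  constructor
  · rintro ⟨n, rfl⟩
    refine ⟨(h⁻¹ * n * h) • d, ⟨⟨h⁻¹ * n * h, ?_⟩, rfl⟩, ?_⟩
    · have := hN.conj_mem _ n.2 h⁻¹
      rwa [inv_inv] at this
    · change h • (h⁻¹ * (n : G) * h) • d = (n : G) • h • d
      rw [mul_smul, mul_smul, smul_inv_smul]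
  · rintro ⟨_, ⟨n, rfl⟩, rfl⟩
    refine ⟨⟨h * n * h⁻¹, hN.conj_mem _ n.2 h⟩, ?_⟩
    change (h * (n : G) * h⁻¹) • h • d = h • (n : G) • d
    rw [mul_smul, mul_smul, inv_smul_smul]

theorem bounded_torsion [FaithfulSMul G X] {m : ℕ} (t : Fin m → G)
    (hgen : Subgroup.closure (Set.range t) = ⊤)
    (hcom : ∀ i j, {x : X | t i • t j • x ≠ t j • t i • x}.Finite)
    (N : Subgroup G) [hN : N.Normal] (hcN : ∀ g h : G, ⁅g, h⁆ ∈ N)
    (hrows : ∀ y : X, (orbit N y).Finite) :
    ∃ E : ℕ, 0 < E ∧ ∀ g : G, IsOfFinOrder g → g ^ E = 1 := by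
  classical
  have hFG : Group.FG G := by
    rw [Group.fg_iff]
    exact ⟨Set.range t, hgen, Set.finite_range t⟩
  obtain ⟨e, he, hcomm⟩ := exists_comm_exp G
  set D : Set X := ⋃ i, ⋃ j, {x : X | t i • t j • x ≠ t j • t i • x} with hD
  have hDfin : D.Finite := Set.finite_iUnion (fun i => Set.finite_iUnion (fun j => hcom i j))
  set X0 : Set X := {x | ∀ g : G, g • x ∉ D} with hX0
  have hX0inv : ∀ (g : G) (x : X), x ∈ X0 → g • x ∈ X0 := by
    intro g x hx h
    rw [← mul_smul]
    exact hx _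
  let Z : Subgroup G :=
    { carrier := {g | ∀ x ∈ X0, g • x = x}
      mul_mem' := by
        intro a b ha hb x hx
        rw [mul_smul, hb x hx, ha x hx]
      one_mem' := by
        intro x _
        exact one_smul _ _
      inv_mem' := by
        intro a ha x hx
        rw [inv_smul_eq_iff, ha x hx] }
  have hZn : Z.Normal := by
    constructor
    intro z hz g x hx
    rw [mul_smul, mul_smul, hz _ (hX0inv g⁻¹ x hx), smul_inv_smul]
  have hZc : ∀ i j, ⁅t i, t j⁆ ∈ Z := by
    intro i j x hx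
    have h1 : (t i)⁻¹ • (t j)⁻¹ • x ∉ D := by
      rw [← mul_smul]
      exact hx _
    have h2 : t i • t j • (t i)⁻¹ • (t j)⁻¹ • x = t j • t i • (t i)⁻¹ • (t j)⁻¹ • x := by
      by_contra hne
      exact h1 (Set.mem_iUnion.2 ⟨i, Set.mem_iUnion.2 ⟨j, hne⟩⟩)
    rw [commutatorElement_def, mul_smul, mul_smul, mul_smul, h2, smul_inv_smul, smul_inv_smul]
  have hZ : commutator G ≤ Z := by
    rw [commutator_def, Subgroup.commutator_le]
    intro g _ k _
    exact commutator_le_of_gen Z t hgen hZc g k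
  have hNc : commutator G ≤ N := by
    rw [commutator_def, Subgroup.commutator_le]
    intro g _ k _
    exact hcN g k
  set P : ℕ := ∏ d ∈ hDfin.toFinset, (orbit N d).ncard.factorial with hP
  have hPpos : 0 < P := Finset.prod_pos (fun d _ => Nat.factorial_pos _)
  refine ⟨e * P, Nat.mul_pos he hPpos, fun g hg => ?_⟩
  have hge := hcomm g hg
  apply FaithfulSMul.eq_of_smul_eq_smul (α := X)
  intro x
  rw [one_smul, pow_mul]
  by_cases hx : x ∈ X0
  · have h1 : (g ^ e) • x = x := hZ hge x hx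
    have h2 : g ^ e ∈ stabilizer G x := h1
    exact Subgroup.pow_mem _ h2 P
  · have h1 : ∃ h : G, h • x ∈ D := by
      by_contra hne
      push Not at hne
      exact hx hne
    obtain ⟨h, hh⟩ := h1
    have h2 : orbit N x = (fun z => h⁻¹ • z) '' orbit N (h • x) := by
      rw [← orbit_smul_eq, inv_smul_smul]
    have h3 : (orbit N x).ncard = (orbit N (h • x)).ncard := by
      rw [h2, Set.ncard_image_of_injective _ (MulAction.injective h⁻¹)]
    apply pow_factorial_smul N x (hrows x) (orbit N (h • x)).ncard h3.le (g ^ e) (hNc hge) P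
    exact Finset.dvd_prod_of_mem _ (by simpa using hh)

end Pool.Agent.PG
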