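import Mathlib

set_option autoImplicit false

/-!
Chains of local 3-cycles.  `T`, `d` permutations, `a_j = T^j a`, `b_j = T^j b` pairwise different,
`d` acts on these points as the 3-cycle `a_(-1) -> a_0 -> b_0 -> a_(-1)`.
The product of the conjugates `d_(m+1) ... d_(m+k)` is a cycle of length `2k+1` on
`a_m, ..., a_(m+k), b_(m+k), ..., b_(m+1)`.
-/

namespace Pool.Agent.PG

open Equiv

variable {X : Type*} {Gr : Type*} [Group Gr]

/-- `T^j d T^(-j)`. -/
def cj (T d : Gr) (j : ℤ) : Gr := T ^ j * d * T ^ (-j)

/-- `d_(m+1) d_(m+2) ... d_(m+k)` (the right factor acts first). -/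
def blk (T d : Gr) (m : ℤ) : ℕ → Gr
  | 0 => 1
  | k + 1 => blk T d m k * cj T d (m + k + 1)

/-- The points `T^j a`, `T^j b`. -/
def pt (T : Perm X) (a b : X) (p : ℤ × Bool) : X := (T ^ p.1) (if p.2 then b else a)

/-- `d` acts on the points as one 3-cycle. -/
structure Chain (T d : Perm X) (a b : X) : Prop where
  h1 : d (pt T a b (-1, false)) = pt T a b (0, false)
  h2 : d (pt T a b (0, false)) = pt T a b (0, true)
  h3 : d (pt T a b (0, true)) = pt T a b (-1, false)
  ha : ∀ j : ℤ, j ≠ -1 → j ≠ 0 → d (pt T a b (j, false)) = pt T a b (j, false)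
  hb : ∀ j : ℤ, j ≠ 0 → d (pt T a b (j, true)) = pt T a b (j, true)
  inj : Function.Injective (pt T a b)

/-- The action of `blk m k` on the indices. -/
def F (m : ℤ) (k : ℕ) : ℤ × Bool → ℤ × Bool
  | (j, false) => if m ≤ j ∧ j < m + k then (j + 1, false)
      else if j = m + k ∧ 0 < k then (j, true) else (j, false)
  | (j, true) => if m + 1 < j ∧ j ≤ m + k then (j - 1, true)
      else if j = m + 1 ∧ 0 < k then (m, false) else (j, true)

/-- The action of the conjugate `d_j`. -/
def G (j : ℤ) : ℤ × Bool → ℤ × Bool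
  | (i, false) => if i = j - 1 then (j, false) else if i = j then (j, true) else (i, false)
  | (i, true) => if i = j then (j - 1, false) else (i, true)

theorem pt_shift (T : Perm X) (a b : X) (j i : ℤ) (s : Bool) :
    (T ^ j) (pt T a b (i, s)) = pt T a b (i + j, s) := by
  simp only [pt]
  rw [← Perm.mul_apply, ← zpow_add, add_comm]

theorem Chain.conj {T d : Perm X} {a b : X} (h : Chain T d a b) (j : ℤ) (p : ℤ × Bool) :
    cj T d j (pt T a b p) = pt T a b (G j p) := by
  obtain ⟨i, s⟩ := p
  have e1 : cj T d j (pt T a b (i, s)) = (T ^ j) (d (pt T a b (i - j, s))) := by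
    simp only [cj, Perm.mul_apply]
    rw [pt_shift, sub_eq_add_neg]
  rw [e1]
  cases s
  · by_cases h1 : i = j - 1
    · have : i - j = -1 := by omega
      rw [this, h.h1, pt_shift]
      simp [G, h1]
    · by_cases h2 : i = j
      · subst h2
        rw [sub_self, h.h2, pt_shift]
        simp only [G]
        rw [if_neg h1, if_pos trivial, zero_add]
      · rw [h.ha _ (by omega) (by omega), pt_shift]
        simp [G, h1, h2]
  · by_cases h2 : i = j
    · subst h2
      rw [sub_self, h.h3, pt_shift]
      simp [G]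
      congr 2
      omega
    · rw [h.hb _ (by omega), pt_shift]
      simp [G, h2]

theorem F_succ (m : ℤ) (k : ℕ) (p : ℤ × Bool) : F m (k + 1) p = F m k (G (m + k + 1) p) := by
  obtain ⟨i, s⟩ := p
  cases s
  · simp only [G]
    by_cases h1 : i = m + k + 1 - 1
    · rw [if_pos h1]
      simp only [F]
      push_cast
      rw [if_pos (by omega), if_neg (by omega), if_neg (by omega)]
      congr 1
      omega
    · rw [if_neg h1]
      by_cases h2 : i = m + k + 1
      · rw [if_pos h2]
        simp only [F]
        push_cast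
        rw [if_neg (by omega), if_pos (by omega), if_neg (by omega), if_neg (by omega), h2]
      · rw [if_neg h2]
        simp only [F]
        push_cast
        by_cases h3 : m ≤ i ∧ i < m + k
        · rw [if_pos (by omega), if_pos (by omega)]
        · rw [if_neg (by omega), if_neg (by omega), if_neg (by omega), if_neg (by omega)]
  · simp only [G]
    by_cases h1 : i = m + k + 1
    · rw [if_pos h1]
      simp only [F]
      push_cast
      by_cases h0 : k = 0
      · subst h0
        simp only [Nat.cast_zero] at *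
        rw [if_neg (by omega), if_pos (by omega), if_neg (by omega), if_neg (by omega)]
        congr 1
        omega
      · rw [if_pos (by omega), if_neg (by omega), if_pos (by omega)]
        congr 1
        omega
    · rw [if_neg h1]
      simp only [F]
      push_cast
      by_cases h3 : m + 1 < i ∧ i ≤ m + k
      · rw [if_pos (by omega), if_pos (by omega)]
      · rw [if_neg (by omega), if_neg h3]
        by_cases h4 : i = m + 1 ∧ 0 < k
        · rw [if_pos (by omega), if_pos h4]
        · rw [if_neg (by omega), if_neg h4]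

theorem F_zero (m : ℤ) (p : ℤ × Bool) : F m 0 p = p := by
  obtain ⟨i, s⟩ := p
  cases s
  · simp only [F]
    split_ifs <;> first | rfl | (exfalso; omega)
  · simp only [F]
    split_ifs <;> first | rfl | (exfalso; omega)

theorem Chain.blk {T d : Perm X} {a b : X} (h : Chain T d a b) (m : ℤ) (k : ℕ) (p : ℤ × Bool) :
    blk T d m k (pt T a b p) = pt T a b (F m k p) := by
  induction k generalizing p with
  | zero => simp [PG.blk, F_zero]
  | succ k ih =>
    rw [PG.blk, Perm.mul_apply, h.conj, ih, ← F_succ]

/-- iterates of `F` along the cycle -/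
theorem F_up (m : ℤ) (k : ℕ) (s : ℕ) (hs : s ≤ k) : (F m k)^[s] (m, false) = (m + s, false) := by
  induction s with
  | zero => simp
  | succ s ih =>
    rw [Function.iterate_succ_apply', ih (by omega)]
    simp only [F]
    rw [if_pos (by omega)]
    push_cast
    congr 1
    omega

theorem F_down (m : ℤ) (k : ℕ) (hk : 0 < k) (s : ℕ) (hs : s < k) :
    (F m k)^[k + 1 + s] (m, false) = (m + k - s, true) := by
  induction s with
  | zero =>
    rw [add_zero, Function.iterate_succ_apply', F_up m k k le_rfl]
    simp only [F]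
    rw [if_neg (by omega), if_pos ⟨trivial, hk⟩]
    simp
  | succ s ih =>
    rw [show k + 1 + (s + 1) = (k + 1 + s) + 1 by ring, Function.iterate_succ_apply', ih (by omega)]
    simp only [F]
    rw [if_pos (by omega)]
    push_cast
    congr 1
    omega

theorem F_period (m : ℤ) (k : ℕ) : (F m k)^[2 * k + 1] (m, false) = (m, false) := by
  rcases Nat.eq_zero_or_pos k with hk | hk
  · subst hk
    simp [F_zero]
  · obtain ⟨k', rfl⟩ : ∃ k', k = k' + 1 := ⟨k - 1, by omega⟩
    rw [show 2 * (k' + 1) + 1 = ((k' + 1) + 1 + k') + 1 by ring, Function.iterate_succ_apply',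
      F_down m (k' + 1) hk k' (by omega)]
    simp only [F]
    push_cast
    rw [if_neg (by omega), if_pos (by omega)]

theorem F_minimal (m : ℤ) (k : ℕ) (s : ℕ) (h0 : 0 < s) (hs : s < 2 * k + 1) :
    (F m k)^[s] (m, false) ≠ (m, false) := by
  by_cases h1 : s ≤ k
  · rw [F_up m k s h1]
    intro h
    rw [Prod.mk.injEq] at h
    omega
  · obtain ⟨r, rfl⟩ : ∃ r, s = k + 1 + r := ⟨s - (k + 1), by omega⟩
    rw [F_down m k (by omega) r (by omega)]
    intro h
    rw [Prod.mk.injEq] at h
    simp at h

theorem F_minimalPeriod (m : ℤ) (k : ℕ) :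
    Function.minimalPeriod (F m k) (m, false) = 2 * k + 1 := by
  have hper : Function.IsPeriodicPt (F m k) (2 * k + 1) (m, false) := F_period m k
  have hle := hper.minimalPeriod_le (by omega)
  have hpos := hper.minimalPeriod_pos (by omega)
  by_contra hne
  exact F_minimal m k _ hpos (by omega) (Function.iterate_minimalPeriod)

theorem F_dvd (m : ℤ) (k n : ℕ) (h : (F m k)^[n] (m, false) = (m, false)) : (2 * k + 1) ∣ n := by
  rw [← F_minimalPeriod m k]
  exact Function.IsPeriodicPt.minimalPeriod_dvd h

/-- Product of blocks placed one after the other. -/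
def blks (T d : Gr) : ℤ → List ℕ → Gr
  | _, [] => 1
  | m, k :: ks => blk T d m k * blks T d (m + k + 1) ks

/-- `F` does not move indices outside `[m, m+k]`. -/
theorem F_out (m : ℤ) (k : ℕ) (p : ℤ × Bool) (h : p.1 < m ∨ m + k < p.1) : F m k p = p := by
  obtain ⟨i, s⟩ := p
  simp only at h
  cases s
  · simp only [F]
    rw [if_neg (by omega), if_neg (by omega)]
  · simp only [F]
    rw [if_neg (by omega), if_neg (by omega)]

theorem F_in (m : ℤ) (k : ℕ) (p : ℤ × Bool) (h : m ≤ p.1 ∧ p.1 ≤ m + k) :
    m ≤ (F m k p).1 ∧ (F m k p).1 ≤ m + k := by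
  obtain ⟨i, s⟩ := p
  simp only at h
  cases s
  · simp only [F]
    split_ifs <;> simp only <;> omega
  · simp only [F]
    split_ifs <;> simp only <;> omega

/-- The action of `blks` on the indices. -/
def FF : ℤ → List ℕ → ℤ × Bool → ℤ × Bool
  | _, [], p => p
  | m, k :: ks, p => F m k (FF (m + k + 1) ks p)

theorem Chain.blks {T d : Perm X} {a b : X} (h : Chain T d a b) (ks : List ℕ) (m : ℤ)
    (p : ℤ × Bool) : blks T d m ks (pt T a b p) = pt T a b (FF m ks p) := by
  induction ks generalizing m p with
  | nil => simp [PG.blks, FF]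
  | cons k ks ih => rw [PG.blks, Perm.mul_apply, ih, h.blk, FF]

theorem FF_low (ks : List ℕ) (m : ℤ) (p : ℤ × Bool) (h : p.1 < m) : FF m ks p = p := by
  induction ks generalizing m p with
  | nil => rfl
  | cons k ks ih =>
    rw [FF, ih (m + k + 1) p (by omega), F_out m k p (Or.inl h)]

theorem FF_high (ks : List ℕ) (m : ℤ) (p : ℤ × Bool) (h : m ≤ p.1) : m ≤ (FF m ks p).1 := by
  induction ks generalizing m p with
  | nil => exact h
  | cons k ks ih =>
    rw [FF]
    by_cases h1 : p.1 ≤ m + k
    · rw [FF_low ks (m + k + 1) p (by omega)]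
      exact (F_in m k p ⟨h, h1⟩).1
    · have h2 := ih (m + k + 1) p (by omega)
      rw [F_out m k _ (Or.inr (by omega))]
      omega

theorem FF_iterate_low (k : ℕ) (ks : List ℕ) (m : ℤ) (p : ℤ × Bool) (h : m ≤ p.1 ∧ p.1 ≤ m + k)
    (n : ℕ) : (FF m (k :: ks))^[n] p = (F m k)^[n] p ∧
      (m ≤ ((F m k)^[n] p).1 ∧ ((F m k)^[n] p).1 ≤ m + k) := by
  induction n with
  | zero => exact ⟨rfl, h⟩
  | succ n ih =>
    rw [Function.iterate_succ_apply', Function.iterate_succ_apply', ih.1]
    refine ⟨?_, F_in m k _ ih.2⟩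
    rw [FF, FF_low ks (m + k + 1) _ (by omega)]

theorem FF_iterate_high (k : ℕ) (ks : List ℕ) (m : ℤ) (p : ℤ × Bool) (h : m + k < p.1)
    (n : ℕ) : (FF m (k :: ks))^[n] p = (FF (m + k + 1) ks)^[n] p ∧
      m + k < ((FF (m + k + 1) ks)^[n] p).1 := by
  induction n with
  | zero => exact ⟨rfl, h⟩
  | succ n ih =>
    rw [Function.iterate_succ_apply', Function.iterate_succ_apply', ih.1]
    have h2 := FF_high ks (m + k + 1) _ (show m + k + 1 ≤ ((FF (m + k + 1) ks)^[n] p).1 by
      have := ih.2
      omega)
    refine ⟨?_, by omega⟩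
    rw [FF, F_out m k _ (Or.inr (by omega))]

theorem FF_dvd (ks : List ℕ) (m : ℤ) (n : ℕ)
    (h : ∀ p : ℤ × Bool, m ≤ p.1 → (FF m ks)^[n] p = p) : ∀ k ∈ ks, (2 * k + 1) ∣ n := by
  induction ks generalizing m with
  | nil => intro k hk; simp at hk
  | cons k ks ih =>
    intro k' hk'
    rcases List.mem_cons.1 hk' with h1 | h1
    · subst h1
      apply F_dvd m k' n
      rw [← (FF_iterate_low k' ks m (m, false) ⟨le_rfl, by simp⟩ n).1]
      exact h _ le_rfl
    · apply ih (m + k + 1) _ k' h1
      intro p hp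
      rw [← (FF_iterate_high k ks m p (by omega) n).1]
      exact h p (by omega)

theorem Chain.iterate {T d : Perm X} {a b : X} (h : Chain T d a b) (ks : List ℕ) (m : ℤ)
    (n : ℕ) (p : ℤ × Bool) :
    (PG.blks T d m ks ^ n) (pt T a b p) = pt T a b ((FF m ks)^[n] p) := by
  induction n with
  | zero => simp
  | succ n ih =>
    rw [pow_succ', Perm.mul_apply, ih, h.blks, Function.iterate_succ_apply']

/-- All `2k+1`, `k` in the list, divide the order of the product of the blocks. -/
theorem Chain.dvd_of_pow {T d : Perm X} {a b : X} (h : Chain T d a b) (ks : List ℕ) (m : ℤ)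
    (n : ℕ) (hn : PG.blks T d m ks ^ n = 1) : ∀ k ∈ ks, (2 * k + 1) ∣ n := by
  apply FF_dvd ks m n
  intro p _
  apply h.inj
  rw [← h.iterate, hn, Perm.one_apply]

end Pool.Agent.PG
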