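import Pool.Agent.PG.Step

set_option autoImplicit false

/-!
If no element `g` with `g y` in the `N`-orbit of `y` has an infinite orbit at `y`, then the
torsion of the group is bounded.
-/

namespace Pool.Agent.PG

open MulAction
open scoped commutatorElement

/-! ### torsion modulo the commutator subgroup -/

theorem torsion_exp_add (M : Type*) [AddCommGroup M] [Module.Finite ℤ M] :
    ∃ e : ℕ, 0 < e ∧ ∀ x : M, IsOfFinAddOrder x → e • x = 0 := by
  have : IsNoetherian ℤ M := isNoetherian_of_isNoetherianRing_of_finite ℤ M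
  have : Finite (Submodule.torsion ℤ M) :=
    Module.finite_of_fg_torsion (Submodule.torsion ℤ M) Submodule.torsion_isTorsion
  refine ⟨Nat.card (Submodule.torsion ℤ M), Nat.card_pos, ?_⟩
  intro x hx
  have hx2 : x ∈ Submodule.torsion ℤ M := by
    rw [isOfFinAddOrder_iff_nsmul_eq_zero] at hx
    obtain ⟨n, hn, hx⟩ := hx
    rw [Submodule.mem_torsion_iff]
    refine ⟨⟨(n : ℤ), mem_nonZeroDivisors_of_ne_zero (by omega)⟩, ?_⟩
    change (n : ℤ) • x = 0
    rw [natCast_zsmul, hx]
  have h := card_nsmul_eq_zero' (x := (⟨x, hx2⟩ : Submodule.torsion ℤ M))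
  exact congrArg Subtype.val h

theorem exists_comm_exp (G : Type*) [Group G] [Group.FG G] :
    ∃ e : ℕ, 0 < e ∧ ∀ g : G, IsOfFinOrder g → g ^ e ∈ commutator G := by
  have h1 : Group.FG (Abelianization G) :=
    Group.fg_of_surjective (f := Abelianization.of) (QuotientGroup.mk_surjective)
  have : Module.Finite ℤ (Additive (Abelianization G)) :=
    Module.Finite.iff_addGroup_fg.mpr inferInstance
  obtain ⟨e, he, h⟩ := torsion_exp_add (Additive (Abelianization G))
  refine ⟨e, he, fun g hg => ?_⟩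
  have h2 : IsOfFinOrder (Abelianization.of g) := Abelianization.of.isOfFinOrder hg
  have h3 := h (Additive.ofMul (Abelianization.of g)) (by
    rwa [isOfFinAddOrder_ofMul_iff])
  have h4 : (Abelianization.of g) ^ e = 1 := h3
  rw [← map_pow] at h4
  exact (QuotientGroup.eq_one_iff _).1 h4

/-- Generators commuting modulo a normal subgroup: all commutators lie in it. -/
theorem commutator_le_of_gen {G : Type*} [Group G] (N : Subgroup G) [N.Normal] {m : ℕ}
    (t : Fin m → G) (hgen : Subgroup.closure (Set.range t) = ⊤)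
    (h : ∀ i j, ⁅t i, t j⁆ ∈ N) (g k : G) : ⁅g, k⁆ ∈ N := by
  have hcomm : ∀ x y : G, ⁅x, y⁆ ∈ N ↔ (x : G ⧸ N) * (y : G ⧸ N) = (y : G ⧸ N) * (x : G ⧸ N) := by
    intro x y
    rw [← QuotientGroup.eq_one_iff, commutatorElement_def, QuotientGroup.mk_mul,
      QuotientGroup.mk_mul, QuotientGroup.mk_mul, QuotientGroup.mk_inv, QuotientGroup.mk_inv,
      mul_inv_eq_one, mul_inv_eq_iff_eq_mul]
  have h1 : ∀ (y : G), (∀ i, ⁅t i, y⁆ ∈ N) → ∀ x : G, ⁅x, y⁆ ∈ N := by
    intro y hy x
    have hx : x ∈ Subgroup.closure (Set.range t) := by rw [hgen]; trivial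
    induction hx using Subgroup.closure_induction with
    | mem x hx =>
      obtain ⟨i, rfl⟩ := hx
      exact hy i
    | one => rw [hcomm]; simp
    | mul a b _ _ iha ihb =>
      rw [hcomm] at *
      rw [QuotientGroup.mk_mul, mul_assoc, ihb, ← mul_assoc, iha, mul_assoc]
    | inv a _ iha =>
      rw [hcomm] at *
      rw [QuotientGroup.mk_inv, inv_mul_eq_iff_eq_mul, ← mul_assoc, iha, mul_inv_cancel_right]
  have h2 : ∀ i, ⁅t i, k⁆ ∈ N := by
    intro i
    have h3 := h1 (t i) (fun j => h j i) k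
    rw [hcomm] at *
    exact h3.symm
  exact h1 k h2 g

/-! ### part (i): rows are finite -/

section Rows

variable {G X : Type*} [Group G] [MulAction G X]

/-- In a transitive action every row is finite. -/
theorem rows_finite_transitive [MulAction.IsPretransitive G X] (N : Subgroup G) [hN : N.Normal]
    (hcN : ∀ g h : G, ⁅g, h⁆ ∈ N) (hfin : ∀ n ∈ N, {x : X | n • x ≠ x}.Finite)
    (T : Finset G) (hT : Subgroup.closure (T : Set G) = ⊤)
    (hNS : ∀ (g : G) (y : X), g • y ∈ orbit N y → ∃ n : ℕ, 0 < n ∧ g ^ n • y = y) (x' : X) :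
    (orbit N x').Finite := by
  classical
  have hS : ∀ (σ : G) (x : X), σ • x ∈ orbit N x → σ ∈ rowStab X N := by
    intro σ x hx z
    obtain ⟨h, rfl⟩ := MulAction.exists_smul_eq G x z
    obtain ⟨n', hn'⟩ := hx
    have hn'' : (n' : G) • x = σ • x := hn'
    refine ⟨⟨⁅σ, h⁆ * (h * n' * h⁻¹), N.mul_mem (hcN σ h) (hN.conj_mem _ n'.2 h)⟩, ?_⟩
    change (⁅σ, h⁆ * (h * (n' : G) * h⁻¹)) • h • x = σ • h • x
    rw [mul_smul, mul_smul, inv_smul_smul, mul_smul, hn'', commutatorElement_def]
    rw [mul_smul, mul_smul, mul_smul, inv_smul_smul, inv_smul_smul]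
  have hcf : ∀ g k : G, {x : X | g • k • x ≠ k • g • x}.Finite := by
    intro g k
    refine (hfin _ (hcN k⁻¹ g⁻¹)).subset ?_
    intro x hx h
    apply hx
    rw [commutatorElement_def, inv_inv, inv_inv, mul_smul, mul_smul, mul_smul] at h
    rw [inv_smul_eq_iff, inv_smul_eq_iff] at h
    exact h.symm ▸ rfl
  have hfo : ∀ σ ∈ rowStab X N, ∀ d : X, (Set.range (fun j : ℤ => (σ ^ j) • d)).Finite := by
    intro σ hσ d
    obtain ⟨n, hn, hnd⟩ := hNS σ d (hσ d)
    refine ((Set.finite_Iio n).image (fun r : ℕ => σ ^ r • d)).subset ?_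
    rintro _ ⟨j, rfl⟩
    have hr0 : 0 ≤ j % (n : ℤ) := Int.emod_nonneg _ (by omega)
    have hr1 : j % (n : ℤ) < n := Int.emod_lt_of_pos _ (by omega)
    refine ⟨(j % (n : ℤ)).toNat, by simp only [Set.mem_Iio]; omega, ?_⟩
    have h1 : ∀ q : ℤ, ((σ ^ n) ^ q) • d = d := by
      intro q
      have h2 : σ ^ n ∈ stabilizer G d := hnd
      exact Subgroup.zpow_mem _ h2 q
    have h3 : (σ ^ j) = σ ^ (j % (n : ℤ)).toNat * (σ ^ n) ^ (j / (n : ℤ)) := by
      rw [← zpow_natCast σ n, ← zpow_mul, ← zpow_natCast σ ((j % (n : ℤ)).toNat), ← zpow_add]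
      congr 1
      rw [Int.toNat_of_nonneg hr0]
      exact (Int.emod_add_mul_ediv j n).symm
    change σ ^ (j % (n : ℤ)).toNat • d = σ ^ j • d
    rw [h3, mul_smul, h1]
  have hDk : ∀ (A : Set G), A.Finite → ∀ g : G,
      ∃ D : Set X, D.Finite ∧ ∀ k ∈ A, ∀ x, x ∉ D → g • k • x = k • g • x := by
    intro A hA g
    refine ⟨⋃ k ∈ A, {x : X | g • k • x ≠ k • g • x}, hA.biUnion (fun k _ => hcf g k), ?_⟩
    intro k hk x hx
    by_contra hne
    exact hx (Set.mem_biUnion hk hne)
  have main : ∀ T' : Finset G, ∃ A : Set G, A.Finite ∧ (T' : Set G) ⊆ Subgroup.closure A ∧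
      RowFin X N (Subgroup.closure A) := by
    intro T'
    induction T' using Finset.induction_on with
    | empty =>
      refine ⟨∅, Set.finite_empty, by simp, ?_⟩
      intro w x'
      refine (Set.finite_singleton w).subset ?_
      rintro x ⟨⟨k, hk, hx⟩, _⟩
      rw [Subgroup.closure_empty, Subgroup.mem_bot] at hk
      rw [hx, hk, one_smul]
      rfl
    | insert g T' _ ih =>
      obtain ⟨A, hA, hTA, hP⟩ := ih
      by_cases hex : ∃ a : ℕ, 0 < a ∧ ∃ k ∈ Subgroup.closure A, ∃ σ ∈ rowStab X N, g ^ a = k * σ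
      · obtain ⟨a, ha, k, hk, σ, hσ, hga⟩ := hex
        obtain ⟨D1, hD1, hD1'⟩ := hDk A hA σ
        have hP1 : RowFin X N (Subgroup.closure (insert σ A)) :=
          step N A σ D1 hD1 hD1' (case_finorb hP σ (hfo σ hσ))
        obtain ⟨D2, hD2, hD2'⟩ := hDk (insert σ A) (hA.insert σ) g
        have hmem : g ^ a ∈ Subgroup.closure (insert σ A) := by
          rw [hga]
          refine Subgroup.mul_mem _ ?_ (Subgroup.subset_closure (Set.mem_insert _ _))
          exact Subgroup.closure_mono (Set.subset_insert _ _) hk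
        have hP2 : RowFin X N (Subgroup.closure (insert g (insert σ A))) :=
          step N (insert σ A) g D2 hD2 hD2' (case_pow hP1 g a ha hmem)
        refine ⟨insert g (insert σ A), (hA.insert σ).insert g, ?_, hP2⟩
        intro x hx
        rw [Finset.coe_insert] at hx
        rcases hx with rfl | hx
        · exact Subgroup.subset_closure (Set.mem_insert _ _)
        · exact Subgroup.closure_mono ((Set.subset_insert _ _).trans (Set.subset_insert _ _))
            (hTA hx)
      · obtain ⟨D2, hD2, hD2'⟩ := hDk A hA g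
        have hP2 : RowFin X N (Subgroup.closure (insert g A)) :=
          step N A g D2 hD2 hD2' (case_free hP g hS hex)
        refine ⟨insert g A, hA.insert g, ?_, hP2⟩
        intro x hx
        rw [Finset.coe_insert] at hx
        rcases hx with rfl | hx
        · exact Subgroup.subset_closure (Set.mem_insert _ _)
        · exact Subgroup.closure_mono (Set.subset_insert _ _) (hTA hx)
  obtain ⟨A, hA, hTA, hP⟩ := main T
  have htop : Subgroup.closure A = ⊤ := by
    rw [eq_top_iff, ← hT, Subgroup.closure_le]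
    exact hTA
  rw [htop] at hP
  refine (hP x' x').subset ?_
  intro x hx
  refine ⟨?_, hx⟩
  obtain ⟨h, hh⟩ := MulAction.exists_smul_eq G x' x
  exact ⟨h, Subgroup.mem_top _, hh.symm⟩

/-- The same for an arbitrary action. -/
theorem rows_finite (N : Subgroup G) [hN : N.Normal]
    (hcN : ∀ g h : G, ⁅g, h⁆ ∈ N) (hfin : ∀ n ∈ N, {x : X | n • x ≠ x}.Finite)
    (T : Finset G) (hT : Subgroup.closure (T : Set G) = ⊤)
    (hNS : ∀ (g : G) (y : X), g • y ∈ orbit N y → ∃ n : ℕ, 0 < n ∧ g ^ n • y = y) (y : X) :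
    (orbit N y).Finite := by
  have h1 : ∀ n ∈ N, {x : orbit G y | n • x ≠ x}.Finite := by
    intro n hn
    have h2 := (hfin n hn).preimage (f := (Subtype.val : orbit G y → X))
      Subtype.val_injective.injOn
    refine h2.subset ?_
    intro x hx h
    apply hx
    exact Subtype.ext h
  have h3 : ∀ (g : G) (z : orbit G y), g • z ∈ orbit N z → ∃ n : ℕ, 0 < n ∧ g ^ n • z = z := by
    intro g z hz
    obtain ⟨n, hn⟩ := hz
    obtain ⟨r, hr, hr2⟩ := hNS g (z : X) ⟨n, congrArg Subtype.val hn⟩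
    exact ⟨r, hr, Subtype.ext hr2⟩
  have h4 := rows_finite_transitive (X := orbit G y) N hcN h1 T hT h3 ⟨y, mem_orbit_self y⟩
  refine (h4.image (Subtype.val : orbit G y → X)).subset ?_
  rintro _ ⟨n, rfl⟩
  exact ⟨n • ⟨y, mem_orbit_self y⟩, ⟨n, rfl⟩, rfl⟩

end Rows

end Pool.Agent.PG
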