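import Pool.Agent.PG.Star

set_option autoImplicit false

/-!
A chain of local 3-cycles inside a torsion normal subgroup forces superpolynomial period growth.
-/

namespace Pool.Agent.PG

open Equiv

variable {X : Type*} {Gr : Type*} [Group Gr]

theorem blk_eq (T d : Gr) (m : ℤ) (k : ℕ) :
    blk T d m k = T ^ (m + 1) * (d * T) ^ k * T ^ (-(m + 1 + k)) := by
  induction k with
  | zero =>
    rw [blk, pow_zero, mul_one, ← zpow_add]
    simp
  | succ k ih =>
    rw [blk, ih, cj, pow_succ (d * T) k]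
    have e1 : T ^ (-(m + 1 + k)) * T ^ (m + k + 1) = 1 := by
      rw [← zpow_add]
      have : -(m + 1 + (k : ℤ)) + (m + k + 1) = 0 := by ring
      rw [this, zpow_zero]
    have e2 : T * T ^ (-(m + 1 + ((k + 1 : ℕ) : ℤ))) = T ^ (-(m + k + 1)) := by
      rw [← zpow_one_add]
      congr 1
      push_cast
      ring
    calc T ^ (m + 1) * (d * T) ^ k * T ^ (-(m + 1 + k)) * (T ^ (m + k + 1) * d * T ^ (-(m + k + 1)))
        = T ^ (m + 1) * (d * T) ^ k * (T ^ (-(m + 1 + k)) * T ^ (m + k + 1)) * d *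
          T ^ (-(m + k + 1)) := by group
      _ = T ^ (m + 1) * (d * T) ^ k * d * T ^ (-(m + k + 1)) := by rw [e1, mul_one]
      _ = T ^ (m + 1) * (d * T) ^ k * d * (T * T ^ (-(m + 1 + ((k + 1 : ℕ) : ℤ)))) := by rw [e2]
      _ = _ := by simp only [mul_assoc]

theorem map_blk {Gr' : Type*} [Group Gr'] (φ : Gr →* Gr') (T d : Gr) (m : ℤ) (k : ℕ) :
    φ (blk T d m k) = blk (φ T) (φ d) m k := by
  rw [blk_eq, blk_eq]
  simp

theorem map_blks {Gr' : Type*} [Group Gr'] (φ : Gr →* Gr') (T d : Gr) (ks : List ℕ) (m : ℤ) :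
    φ (blks T d m ks) = blks (φ T) (φ d) m ks := by
  induction ks generalizing m with
  | nil => simp [blks]
  | cons k ks ih => rw [blks, blks, map_mul, map_blk, ih]

theorem blk_mem {N : Subgroup Gr} [N.Normal] {T d : Gr} (hd : d ∈ N) (m : ℤ) (k : ℕ) :
    blk T d m k ∈ N := by
  induction k with
  | zero => exact N.one_mem
  | succ k ih =>
    rw [blk]
    refine N.mul_mem ih ?_
    have := Subgroup.Normal.conj_mem (inferInstance : N.Normal) d hd (T ^ (m + k + 1))
    rw [cj, zpow_neg]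
    exact this

theorem blks_mem {N : Subgroup Gr} [N.Normal] {T d : Gr} (hd : d ∈ N) (ks : List ℕ) (m : ℤ) :
    blks T d m ks ∈ N := by
  induction ks generalizing m with
  | nil => exact N.one_mem
  | cons k ks ih => exact N.mul_mem (blk_mem hd m k) (ih _)

/-- `g` is a product of at most `n` letters. -/
def Len {Γ : Type*} [Group Γ] {k : ℕ} (f : Fin k → Γ) (n : ℕ) (g : Γ) : Prop :=
  ∃ w : List (Fin k), w.length ≤ n ∧ (w.map f).prod = g

section Len

variable {Γ : Type*} [Group Γ] {k : ℕ} {f : Fin k → Γ}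

theorem Len.mono {n m : ℕ} {g : Γ} (h : Len f n g) (hnm : n ≤ m) : Len f m g := by
  obtain ⟨w, hw, he⟩ := h
  exact ⟨w, hw.trans hnm, he⟩

theorem Len.one : Len f 0 (1 : Γ) := ⟨[], by simp, by simp⟩

theorem Len.mul {n m : ℕ} {g h : Γ} (hg : Len f n g) (hh : Len f m h) : Len f (n + m) (g * h) := by
  obtain ⟨w, hw, rfl⟩ := hg
  obtain ⟨v, hv, rfl⟩ := hh
  exact ⟨w ++ v, by rw [List.length_append]; omega, by simp⟩

theorem Len.pow {n : ℕ} {g : Γ} (hg : Len f n g) (m : ℕ) : Len f (m * n) (g ^ m) := by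
  induction m with
  | zero => rw [zero_mul, pow_zero]; exact Len.one
  | succ m ih =>
    rw [pow_succ, add_mul, one_mul]
    exact ih.mul hg

theorem Len.zpow {n : ℕ} {g : Γ} (hg : Len f n g) (hg' : Len f n g⁻¹) (z : ℤ) :
    Len f (z.natAbs * n) (g ^ z) := by
  obtain ⟨m, rfl | rfl⟩ := z.eq_nat_or_neg
  · simpa using hg.pow m
  · have := hg'.pow m
    simpa using this

theorem Len.exists (hgen : Submonoid.closure (Set.range f) = ⊤) (g : Γ) : ∃ n, Len f n g := by
  have hg : g ∈ Submonoid.closure (Set.range f) := by rw [hgen]; trivial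
  induction hg using Submonoid.closure_induction with
  | mem x hx =>
    obtain ⟨i, rfl⟩ := hx
    exact ⟨1, [i], by simp, by simp⟩
  | one => exact ⟨0, Len.one⟩
  | mul x y _ _ hx hy =>
    obtain ⟨n, hn⟩ := hx
    obtain ⟨m, hm⟩ := hy
    exact ⟨n + m, hn.mul hm⟩

theorem len_blk {T d : Γ} {L : ℕ} (h1 : Len f L T) (h2 : Len f L T⁻¹) (h3 : Len f L d)
    (m k' : ℕ) : Len f ((2 * m + 3 * k' + 2) * L) (blk T d (m : ℤ) k') := by
  rw [blk_eq]
  have a1 := h1.zpow h2 ((m : ℤ) + 1)
  have a2 := (h3.mul h1).pow k'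
  have a3 := h1.zpow h2 (-((m : ℤ) + 1 + k'))
  refine ((a1.mul a2).mul a3).mono ?_
  have e1 : ((m : ℤ) + 1).natAbs = m + 1 := by omega
  have e2 : (-((m : ℤ) + 1 + k')).natAbs = m + 1 + k' := by omega
  rw [e1, e2]
  apply le_of_eq
  ring

theorem len_blks {T d : Γ} {L : ℕ} (h1 : Len f L T) (h2 : Len f L T⁻¹) (h3 : Len f L d)
    (ks : List ℕ) (m M : ℕ) (hM : m + (ks.map (· + 1)).sum ≤ M) :
    Len f (ks.length * ((3 * M + 2) * L)) (blks T d (m : ℤ) ks) := by
  induction ks generalizing m with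
  | nil => simpa [blks] using Len.one
  | cons k' ks ih =>
    rw [List.map_cons, List.sum_cons] at hM
    have a1 := len_blk h1 h2 h3 m k'
    have a2 := ih (m + k' + 1) (by omega)
    rw [blks]
    push_cast at a2
    refine (a1.mul a2).mono ?_
    have e1 : (2 * m + 3 * k' + 2) * L ≤ (3 * M + 2) * L := Nat.mul_le_mul_right _ (by omega)
    have e2 : (k' :: ks).length * ((3 * M + 2) * L) =
        (3 * M + 2) * L + ks.length * ((3 * M + 2) * L) := by
      rw [List.length_cons, Nat.succ_mul, add_comm]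
    rw [e2]
    exact Nat.add_le_add_right e1 _

end Len

/-- the list of block lengths -/
def kl (q s : ℕ) : List ℕ := (List.range q).map (fun i => q.factorial * s * (i + 1))

theorem kl_coprime (q s i j : ℕ) (hj : j < q) (hij : i < j) :
    Nat.Coprime (2 * (q.factorial * s * (i + 1)) + 1) (2 * (q.factorial * s * (j + 1)) + 1) := by
  by_contra hc
  obtain ⟨p, hp, h1, h2⟩ := Nat.Prime.not_coprime_iff_dvd.mp hc
  have h3 : p ∣ (j + 1) * (2 * (q.factorial * s * (i + 1)) + 1) := Dvd.dvd.mul_left h1 _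
  have h4 : p ∣ (i + 1) * (2 * (q.factorial * s * (j + 1)) + 1) := Dvd.dvd.mul_left h2 _
  have h5 : p ∣ (j - i) := by
    have h6 := Nat.dvd_sub h3 h4
    have e : (j + 1) * (2 * (q.factorial * s * (i + 1)) + 1) -
        (i + 1) * (2 * (q.factorial * s * (j + 1)) + 1) = j - i := by
      have : (j + 1) * (2 * (q.factorial * s * (i + 1)) + 1) =
          (i + 1) * (2 * (q.factorial * s * (j + 1)) + 1) + (j - i) := by
        obtain ⟨r, rfl⟩ : ∃ r, j = i + r := ⟨j - i, by omega⟩
        have : i + r - i = r := by omega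
        rw [this]
        ring
      omega
    rwa [e] at h6
  have h7 : p ≤ j - i := Nat.le_of_dvd (by omega) h5
  have h8 : p ∣ q.factorial := Nat.dvd_factorial hp.pos (by omega)
  have h9 : p ∣ 2 * (q.factorial * s * (i + 1)) := by
    refine Dvd.dvd.mul_left ?_ _
    rw [mul_assoc]
    exact Dvd.dvd.mul_right h8 _
  have h10 : p ∣ 1 := (Nat.dvd_add_right h9).1 h1
  exact hp.one_lt.ne' (Nat.dvd_one.1 h10)

theorem kl_order (q s n : ℕ) (hn : 0 < n) (h : ∀ k ∈ kl q s, (2 * k + 1) ∣ n) : s ^ q ≤ n := by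
  have h1 : (∏ i ∈ Finset.range q, (2 * (q.factorial * s * (i + 1)) + 1)) ∣ n := by
    apply Finset.prod_dvd_of_isRelPrime
    · intro i hi j hj hij
      rw [Function.onFun, ← Nat.coprime_iff_isRelPrime]
      simp only [Finset.coe_range, Set.mem_Iio] at hi hj
      rcases lt_or_gt_of_ne hij with h | h
      · exact kl_coprime q s i j hj h
      · exact (kl_coprime q s j i hi h).symm
    · intro i hi
      apply h
      rw [kl, List.mem_map]
      exact ⟨i, by simpa using hi, rfl⟩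
  refine le_trans ?_ (Nat.le_of_dvd hn h1)
  calc s ^ q = ∏ _i ∈ Finset.range q, s := by simp
    _ ≤ _ := by
      apply Finset.prod_le_prod'
      intro i _
      have h2 : 1 ≤ q.factorial := Nat.factorial_pos q
      calc s = 1 * s * 1 := by ring
        _ ≤ q.factorial * s * (i + 1) :=
          Nat.mul_le_mul (Nat.mul_le_mul_right _ h2) (by omega)
        _ ≤ _ := by omega

theorem kl_length (q s : ℕ) : (kl q s).length = q := by simp [kl]

theorem kl_sum (q s : ℕ) (hs : 1 ≤ s) :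
    ((kl q s).map (· + 1)).sum ≤ (q * (q.factorial * q + 1)) * s := by
  have h1 : ∀ x ∈ (kl q s).map (· + 1), x ≤ (q.factorial * q + 1) * s := by
    intro x hx
    simp only [kl, List.map_map, List.mem_map, List.mem_range, Function.comp] at hx
    obtain ⟨i, hi, rfl⟩ := hx
    have : q.factorial * s * (i + 1) ≤ q.factorial * s * q := Nat.mul_le_mul_left _ (by omega)
    nlinarith
  have h2 := List.sum_le_card_nsmul _ _ h1
  rw [List.length_map, kl_length, smul_eq_mul] at h2
  calc _ ≤ _ := h2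
    _ = _ := by ring

/-- The main growth statement. -/
theorem growth {Γ : Type*} [Group Γ] {k : ℕ} (f : Fin k → Γ)
    (hgen : Submonoid.closure (Set.range f) = ⊤) (H : Subgroup Γ) (φ : H →* Perm X)
    (N : Subgroup H) [N.Normal] (htor : ∀ g ∈ N, IsOfFinOrder g) (τ δ : H) (hδ : δ ∈ N)
    {a b : X} (hch : Chain (φ τ) (φ δ) a b) :
    ¬ ∃ C d : ℕ, ∀ (n : ℕ) (w : List (Fin k)), w.length ≤ n →
        0 < orderOf (w.map f).prod → orderOf (w.map f).prod ≤ C * n ^ d + C := by
  rintro ⟨C, d, hCd⟩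
  obtain ⟨l1, hl1⟩ := Len.exists hgen (τ : Γ)
  obtain ⟨l2, hl2⟩ := Len.exists hgen ((τ : Γ)⁻¹)
  obtain ⟨l3, hl3⟩ := Len.exists hgen (δ : Γ)
  set L := l1 + l2 + l3 with hL
  have k1 : Len f L (τ : Γ) := hl1.mono (by omega)
  have k2 : Len f L ((τ : Γ)⁻¹) := hl2.mono (by omega)
  have k3 : Len f L (δ : Γ) := hl3.mono (by omega)
  set q := d + 1 with hq
  -- the basic estimate
  have key : ∀ s : ℕ, 1 ≤ s → s ^ q ≤ C * (q * ((3 * (q * (q.factorial * q + 1)) + 2) * L) * s) ^ d + C := by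
    intro s hs
    have a1 := len_blks k1 k2 k3 (kl q s) 0 ((q * (q.factorial * q + 1)) * s)
      (by rw [zero_add]; exact kl_sum q s hs)
    rw [kl_length] at a1
    have a2 : Len f (q * ((3 * (q * (q.factorial * q + 1)) + 2) * L) * s)
        (blks (τ : Γ) (δ : Γ) ((0 : ℕ) : ℤ) (kl q s)) := by
      refine a1.mono ?_
      have : 3 * (q * (q.factorial * q + 1) * s) + 2 ≤ (3 * (q * (q.factorial * q + 1)) + 2) * s := by
        nlinarith
      calc q * ((3 * (q * (q.factorial * q + 1) * s) + 2) * L)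
          ≤ q * (((3 * (q * (q.factorial * q + 1)) + 2) * s) * L) :=
            Nat.mul_le_mul_left _ (Nat.mul_le_mul_right _ this)
        _ = _ := by ring
    obtain ⟨w, hw, hwe⟩ := a2
    have e1 : ((blks τ δ (0 : ℤ) (kl q s) : H) : Γ) = blks (τ : Γ) (δ : Γ) (0 : ℤ) (kl q s) :=
      map_blks H.subtype τ δ (kl q s) 0
    have hfin : IsOfFinOrder (blks τ δ (0 : ℤ) (kl q s)) := htor _ (blks_mem hδ _ _)
    have e2 : orderOf (w.map f).prod = orderOf (blks τ δ (0 : ℤ) (kl q s)) := by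
      rw [hwe, Nat.cast_zero, ← e1, Subgroup.orderOf_coe]
    have hpos : 0 < orderOf (blks τ δ (0 : ℤ) (kl q s)) := hfin.orderOf_pos
    have b1 := hCd _ w hw (by rw [e2]; exact hpos)
    rw [e2] at b1
    refine le_trans ?_ b1
    apply kl_order q s _ hpos
    intro k' hk'
    apply hch.dvd_of_pow (kl q s) 0 _ _ k' hk'
    rw [← map_blks, ← map_pow, pow_orderOf_eq_one, map_one]
  set B := q * ((3 * (q * (q.factorial * q + 1)) + 2) * L) with hB
  have h2 : ∀ s : ℕ, 1 ≤ s → s ≤ C * B ^ d + C := by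
    intro s hs
    have h3 := key s hs
    have h4 : s ^ d * s ≤ s ^ d * (C * B ^ d + C) := by
      calc s ^ d * s = s ^ q := by rw [hq, pow_succ]
        _ ≤ C * (B * s) ^ d + C := h3
        _ ≤ C * (B * s) ^ d + C * s ^ d := by
          have : 1 ≤ s ^ d := Nat.one_le_pow _ _ hs
          nlinarith
        _ = _ := by rw [mul_pow]; ring
    exact Nat.le_of_mul_le_mul_left h4 (Nat.pow_pos (by omega))
  have := h2 (C * B ^ d + C + 1) (by omega)
  omega

theorem map_dd {Gr' : Type*} [Group Gr'] (φ : Gr →* Gr') (T e : Gr) :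
    φ (dd T e) = dd (φ T) (φ e) := by
  simp only [dd, ww, cc, vv, uu, map_mul, map_inv, map_zpow]

theorem dd_mem {N : Subgroup Gr} [hN : N.Normal] {T e : Gr} (he : e ∈ N) : dd T e ∈ N := by
  have hu : uu T e ∈ N := by
    have h1 := hN.conj_mem _ (N.inv_mem he) T
    exact N.mul_mem h1 he
  have hv : vv T e ∈ N := by
    have h1 := hN.conj_mem _ hu (T ^ (2 : ℤ))
    rw [vv, zpow_neg]
    exact h1
  have hc : cc T e ∈ N :=
    N.mul_mem (N.mul_mem (N.mul_mem hu hv) (N.inv_mem hu)) (N.inv_mem hv)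
  have hw : ww T e ∈ N := by
    have h1 := hN.conj_mem _ hc (T ^ (-4 : ℤ))
    rw [ww, zpow_neg T (-4)]
    exact h1
  exact N.mul_mem (N.mul_mem hw hc) (N.inv_mem hw)

/-- A star inside a torsion normal subgroup forces superpolynomial period growth. -/
theorem growth_star {Γ : Type*} [Group Γ] {k : ℕ} (f : Fin k → Γ)
    (hgen : Submonoid.closure (Set.range f) = ⊤) (H : Subgroup Γ) (φ : H →* Perm X)
    (N : Subgroup H) [N.Normal] (htor : ∀ g ∈ N, IsOfFinOrder g) (τ ε : H) (hε : ε ∈ N)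
    {y a : X} (hst : Star (φ τ) (φ ε) y a) :
    ¬ ∃ C d : ℕ, ∀ (n : ℕ) (w : List (Fin k)), w.length ≤ n →
        0 < orderOf (w.map f).prod → orderOf (w.map f).prod ≤ C * n ^ d + C := by
  have h := hst.chain
  rw [← map_dd, ← map_zpow] at h
  exact growth f hgen H φ N htor (τ ^ (4 : ℤ)) (dd τ ε) (dd_mem hε) h

end Pool.Agent.PG
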