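import Mathlib

set_option autoImplicit false

/-!
Sets of odd primes with small sum and large product.
-/

namespace Pool.Agent.PG

open Filter Chebyshev

theorem theta_ge_quarter : ∀ᶠ x : ℝ in atTop, x / 4 ≤ theta x := by
  have h1 : ∀ᶠ x : ℝ in atTop, Real.log x ≤ (1 / 100) * √x := by
    have h := (isLittleO_log_rpow_atTop (r := 1 / 2) (by norm_num)).bound
      (show (0 : ℝ) < 1 / 100 by norm_num)
    filter_upwards [h, eventually_ge_atTop 1] with x hx hx1
    rw [← Real.sqrt_eq_rpow, Real.norm_of_nonneg (Real.log_nonneg hx1),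
      Real.norm_of_nonneg (Real.sqrt_nonneg x)] at hx
    exact hx
  filter_upwards [h1, eventually_ge_atTop 10] with x hx hx10
  have h2 := theta_ge' (x := x) (by linarith)
  have h3 : Real.log (x + 2) ≤ 2 * Real.log x := by
    rw [← Real.log_rpow (by linarith)]
    apply Real.log_le_log (by linarith)
    have : x ^ (2 : ℝ) = x ^ 2 := by norm_cast
    rw [this]
    nlinarith
  have h4 : √x * √x = x := Real.mul_self_sqrt (by linarith)
  have h5 : √x * Real.log x ≤ √x * ((1 / 100) * √x) :=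
    mul_le_mul_of_nonneg_left hx (Real.sqrt_nonneg x)
  have h6 : √x * ((1 / 100) * √x) = x / 100 := by
    rw [show √x * ((1 / 100) * √x) = (1 / 100) * (√x * √x) by ring, h4]
    ring
  have h7 : √x ≤ x := by
    rw [Real.sqrt_le_left (by linarith)]
    nlinarith
  have h8 := Real.log_two_gt_d9
  have h9 : (x - 1) * 0.69 ≤ (x - 1) * Real.log 2 :=
    mul_le_mul_of_nonneg_left (by linarith) (by linarith)
  nlinarith

theorem exists_primes (L : ℕ) (hL : 1 ≤ L) : ∃ c : ℝ, 0 < c ∧ ∃ n0 : ℕ, ∀ n : ℕ, n0 ≤ n →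
    ∃ S : Finset ℕ, (∀ p ∈ S, p.Prime ∧ p ≠ 2) ∧ (2 + 2 * ∑ p ∈ S, p) * L ≤ n ∧
      Real.exp (c * √(n * Real.log n)) ≤ ((∏ p ∈ S, p : ℕ) : ℝ) := by
  have hLr : (1 : ℝ) ≤ L := by exact_mod_cast hL
  set δ : ℝ := 1 / (4 * L) with hδ
  have hδpos : 0 < δ := by positivity
  refine ⟨δ / 8, by positivity, ?_⟩
  set x : ℕ → ℝ := fun n => δ * √(n * Real.log n) with hx
  have hlog : Tendsto (fun n : ℕ => Real.log (n : ℝ)) atTop atTop :=
    Real.tendsto_log_atTop.comp tendsto_natCast_atTop_atTop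
  -- `x n ≥ √n` eventually
  have hx1 : ∀ᶠ n : ℕ in atTop, √(n : ℝ) ≤ x n := by
    filter_upwards [hlog.eventually_ge_atTop (1 / δ ^ 2)] with n hn
    simp only [hx]
    rw [Real.sqrt_mul (Nat.cast_nonneg n)]
    have h1 : 1 / δ ≤ √(Real.log n) := by
      apply Real.le_sqrt_of_sq_le
      rw [div_pow, one_pow]
      exact hn
    have h2 : 1 ≤ δ * √(Real.log n) := by
      have := mul_le_mul_of_nonneg_left h1 hδpos.le
      rwa [mul_one_div_cancel hδpos.ne'] at this
    calc √(n : ℝ) = √(n : ℝ) * 1 := by ring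
      _ ≤ √(n : ℝ) * (δ * √(Real.log n)) := mul_le_mul_of_nonneg_left h2 (Real.sqrt_nonneg _)
      _ = _ := by ring
  have hxt : Tendsto x atTop atTop := by
    apply tendsto_atTop_mono' atTop hx1
    exact Real.tendsto_sqrt_atTop.comp tendsto_natCast_atTop_atTop
  have hpi := hxt.eventually (eventually_primeCounting_le (ε := 2 - Real.log 4) (by
    have h1 : Real.log 4 = 2 * Real.log 2 := by
      rw [show (4 : ℝ) = 2 ^ 2 by norm_num, Real.log_pow]
      norm_num
    rw [h1]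
    have := Real.log_two_lt_d9
    linarith))
  have hth := hxt.eventually theta_ge_quarter
  have hev : ∀ᶠ n : ℕ in atTop, ∃ S : Finset ℕ, (∀ p ∈ S, p.Prime ∧ p ≠ 2) ∧
      (2 + 2 * ∑ p ∈ S, p) * L ≤ n ∧
      Real.exp (δ / 8 * √(n * Real.log n)) ≤ ((∏ p ∈ S, p : ℕ) : ℝ) := by
    filter_upwards [hx1, hpi, hth, hxt.eventually_ge_atTop 8, eventually_ge_atTop (4 * L),
      eventually_ge_atTop 3] with n h1 h2 h3 h4 h5 h6
    have hn1 : (3 : ℝ) ≤ n := by exact_mod_cast h6
    have hlogn : 0 < Real.log n := Real.log_pos (by linarith)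
    have hxsq : x n ^ 2 = δ ^ 2 * (n * Real.log n) := by
      simp only [hx]
      rw [mul_pow, Real.sq_sqrt (by positivity)]
    refine ⟨(Nat.primesLE ⌊x n⌋₊).erase 2, ?_, ?_, ?_⟩
    · intro p hp
      rw [Finset.mem_erase] at hp
      exact ⟨Nat.prime_of_mem_primesLE hp.2, hp.1⟩
    · -- the sum
      have s1 : ∑ p ∈ (Nat.primesLE ⌊x n⌋₊).erase 2, p ≤ ⌊x n⌋₊ * Nat.primeCounting ⌊x n⌋₊ := by
        calc ∑ p ∈ (Nat.primesLE ⌊x n⌋₊).erase 2, p
            ≤ ∑ p ∈ Nat.primesLE ⌊x n⌋₊, p :=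
              Finset.sum_le_sum_of_subset (Finset.erase_subset _ _)
          _ ≤ ∑ _p ∈ Nat.primesLE ⌊x n⌋₊, ⌊x n⌋₊ :=
              Finset.sum_le_sum (fun p hp => Nat.le_of_mem_primesLE hp)
          _ = _ := by
              rw [Finset.sum_const, smul_eq_mul, mul_comm]
              congr 1
              simp
      have s2 : ((∑ p ∈ (Nat.primesLE ⌊x n⌋₊).erase 2, p : ℕ) : ℝ) ≤
          x n * (2 * x n / Real.log (x n)) := by
        calc ((∑ p ∈ (Nat.primesLE ⌊x n⌋₊).erase 2, p : ℕ) : ℝ)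
            ≤ ((⌊x n⌋₊ * Nat.primeCounting ⌊x n⌋₊ : ℕ) : ℝ) := by exact_mod_cast s1
          _ = (⌊x n⌋₊ : ℝ) * (Nat.primeCounting ⌊x n⌋₊ : ℝ) := by push_cast; ring
          _ ≤ x n * (2 * x n / Real.log (x n)) := by
            apply mul_le_mul (Nat.floor_le (by linarith)) _ (Nat.cast_nonneg _) (by linarith)
            refine h2.trans (le_of_eq ?_)
            ring
      have s3 : 1 / 2 * Real.log n ≤ Real.log (x n) := by
        have := Real.log_le_log (Real.sqrt_pos.2 (by linarith)) h1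
        rw [Real.log_sqrt (by linarith)] at this
        linarith
      have s4 : x n * (2 * x n / Real.log (x n)) ≤ 4 * δ ^ 2 * n := by
        have e1 : x n * (2 * x n / Real.log (x n)) = 2 * x n ^ 2 / Real.log (x n) := by ring
        rw [e1, div_le_iff₀ (by linarith), hxsq]
        nlinarith [mul_le_mul_of_nonneg_left s3 (show 0 ≤ 4 * δ ^ 2 * n by positivity)]
      have s5 : 4 * δ ^ 2 * (n : ℝ) * L ≤ n / 4 := by
        have e1 : 4 * δ ^ 2 * (n : ℝ) * L = n / 4 * (1 / L) := by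
          rw [hδ]
          field_simp
        rw [e1]
        have e2 : 1 / (L : ℝ) ≤ 1 := by
          rw [div_le_one (by linarith)]
          exact hLr
        nlinarith [mul_le_mul_of_nonneg_left e2 (show (0 : ℝ) ≤ n / 4 by positivity)]
      have s6 : (4 * L : ℝ) ≤ n := by exact_mod_cast h5
      have s7 : (((2 + 2 * ∑ p ∈ (Nat.primesLE ⌊x n⌋₊).erase 2, p) * L : ℕ) : ℝ) ≤ n := by
        have e1 := mul_le_mul_of_nonneg_right (s2.trans s4) (show (0 : ℝ) ≤ L by linarith)
        have e2 : (((2 + 2 * ∑ p ∈ (Nat.primesLE ⌊x n⌋₊).erase 2, p) * L : ℕ) : ℝ) =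
            2 * L + 2 * (((∑ p ∈ (Nat.primesLE ⌊x n⌋₊).erase 2, p : ℕ) : ℝ) * L) := by
          push_cast
          ring
        rw [e2]
        linarith
      exact_mod_cast s7
    · -- the product
      have p1 : (2 : ℕ) ∈ Nat.primesLE ⌊x n⌋₊ := by
        rw [Nat.mem_primesLE]
        exact ⟨Nat.le_floor (by push_cast; linarith), Nat.prime_two⟩
      have p2 : (2 : ℕ) * ∏ p ∈ (Nat.primesLE ⌊x n⌋₊).erase 2, p = primorial ⌊x n⌋₊ := by
        rw [primorial_eq_prod_primesLE]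
        exact Finset.mul_prod_erase _ (fun p => p) p1
      have p3 : (0 : ℝ) < ((∏ p ∈ (Nat.primesLE ⌊x n⌋₊).erase 2, p : ℕ) : ℝ) := by
        have : 0 < ∏ p ∈ (Nat.primesLE ⌊x n⌋₊).erase 2, p :=
          Finset.prod_pos (fun p hp => (Nat.prime_of_mem_primesLE (Finset.mem_of_mem_erase hp)).pos)
        exact_mod_cast this
      have p4 : theta (x n) = Real.log 2 +
          Real.log ((∏ p ∈ (Nat.primesLE ⌊x n⌋₊).erase 2, p : ℕ) : ℝ) := by
        rw [theta_eq_log_primorial, ← p2, Nat.cast_mul, Real.log_mul (by norm_num) p3.ne']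
        norm_num
      rw [← Real.le_log_iff_exp_le p3]
      have p5 : δ / 8 * √(n * Real.log n) = x n / 8 := by
        simp only [hx]
        ring
      rw [p5]
      have := Real.log_two_lt_d9
      linarith
  obtain ⟨n0, hn0⟩ := eventually_atTop.1 hev
  exact ⟨n0, hn0⟩

end Pool.Agent.PG
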