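import Pool.Agent.PG.Growth
import Pool.Agent.PG.Primes

set_option autoImplicit false

/-!
A chain of local 3-cycles inside a torsion normal subgroup forces period growth at least
`exp (c * sqrt (n log n))`.
-/

namespace Pool.Agent.PG

open Equiv

variable {X : Type*} {Gr : Type*} [Group Gr]

/-- the telescoped middle part of a product of blocks -/
def mid (T d : Gr) : List ℕ → Gr
  | [] => 1
  | k :: ks => (d * T) ^ k * T * mid T d ks

theorem blks_eq (T d : Gr) (ks : List ℕ) (m : ℤ) :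
    blks T d m ks = T ^ (m + 1) * mid T d ks * T ^ (-(m + 1 + ((ks.map (· + 1)).sum : ℕ))) := by
  induction ks generalizing m with
  | nil =>
    rw [blks, mid, mul_one, ← zpow_add]
    simp
  | cons k ks ih =>
    rw [blks, ih, blk_eq, mid, List.map_cons, List.sum_cons]
    have e1 : T ^ (-(m + 1 + (k : ℤ))) * T ^ (m + k + 1 + 1) = T := by
      rw [← zpow_add]
      have : -(m + 1 + (k : ℤ)) + (m + k + 1 + 1) = 1 := by ring
      rw [this, zpow_one]
    have e2 : -(m + ↑k + 1 + 1 + (((ks.map (· + 1)).sum : ℕ) : ℤ)) =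
        -(m + 1 + ((k + 1 + (ks.map (· + 1)).sum : ℕ) : ℤ)) := by
      push_cast
      ring
    calc T ^ (m + 1) * (d * T) ^ k * T ^ (-(m + 1 + (k : ℤ))) *
          (T ^ (m + k + 1 + 1) * mid T d ks *
            T ^ (-(m + ↑k + 1 + 1 + (((ks.map (· + 1)).sum : ℕ) : ℤ))))
        = T ^ (m + 1) * (d * T) ^ k * (T ^ (-(m + 1 + (k : ℤ))) * T ^ (m + k + 1 + 1)) *
          mid T d ks * T ^ (-(m + ↑k + 1 + 1 + (((ks.map (· + 1)).sum : ℕ) : ℤ))) := by
            simp only [mul_assoc]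
      _ = _ := by rw [e1, e2]; simp only [mul_assoc]

section Len

variable {Γ : Type*} [Group Γ] {k : ℕ} {f : Fin k → Γ}

theorem len_mid {T d : Γ} {L : ℕ} (h1 : Len f L T) (h3 : Len f L d) (ks : List ℕ) :
    Len f ((ks.map (fun k' => 2 * k' + 1)).sum * L) (mid T d ks) := by
  induction ks with
  | nil => simpa [mid] using Len.one
  | cons k' ks ih =>
    rw [mid, List.map_cons, List.sum_cons]
    refine ((((h3.mul h1).pow k').mul h1).mul ih).mono ?_
    apply le_of_eq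
    ring

theorem sum_le_sum_odd (ks : List ℕ) :
    (ks.map (· + 1)).sum ≤ (ks.map (fun k' => 2 * k' + 1)).sum := by
  apply List.sum_le_sum
  intro i _
  omega

theorem len_blks_sharp {T d : Γ} {L : ℕ} (h1 : Len f L T) (h2 : Len f L T⁻¹) (h3 : Len f L d)
    (ks : List ℕ) :
    Len f ((2 + 2 * (ks.map (fun k' => 2 * k' + 1)).sum) * L) (blks T d 0 ks) := by
  rw [blks_eq]
  have a1 := h1.zpow h2 ((0 : ℤ) + 1)
  have a2 := len_mid h1 h3 ks
  have a3 := h1.zpow h2 (-((0 : ℤ) + 1 + ((ks.map (· + 1)).sum : ℕ)))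
  refine ((a1.mul a2).mul a3).mono ?_
  have e1 : ((0 : ℤ) + 1).natAbs = 1 := by omega
  have e2 : (-((0 : ℤ) + 1 + ((ks.map (· + 1)).sum : ℕ))).natAbs = 1 + (ks.map (· + 1)).sum := by
    omega
  rw [e1, e2]
  have e3 := sum_le_sum_odd ks
  calc 1 * L + (ks.map (fun k' => 2 * k' + 1)).sum * L + (1 + (ks.map (· + 1)).sum) * L
      = (2 + (ks.map (fun k' => 2 * k' + 1)).sum + (ks.map (· + 1)).sum) * L := by ring
    _ ≤ _ := Nat.mul_le_mul_right _ (by omega)

end Len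

/-- The main growth statement, sharp form. -/
theorem growth_sharp {Γ : Type*} [Group Γ] {k : ℕ} (f : Fin k → Γ)
    (hgen : Submonoid.closure (Set.range f) = ⊤) (H : Subgroup Γ) (φ : H →* Perm X)
    (N : Subgroup H) [N.Normal] (htor : ∀ g ∈ N, IsOfFinOrder g) (τ δ : H) (hδ : δ ∈ N)
    {a b : X} (hch : Chain (φ τ) (φ δ) a b) :
    ∃ c : ℝ, 0 < c ∧ ∃ n0 : ℕ, ∀ n : ℕ, n0 ≤ n → ∃ w : List (Fin k), w.length ≤ n ∧
      0 < orderOf (w.map f).prod ∧
      Real.exp (c * √(n * Real.log n)) ≤ (orderOf (w.map f).prod : ℝ) := by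
  obtain ⟨l1, hl1⟩ := Len.exists hgen (τ : Γ)
  obtain ⟨l2, hl2⟩ := Len.exists hgen ((τ : Γ)⁻¹)
  obtain ⟨l3, hl3⟩ := Len.exists hgen (δ : Γ)
  set L := l1 + l2 + l3 + 1 with hL
  have k1 : Len f L (τ : Γ) := hl1.mono (by omega)
  have k2 : Len f L ((τ : Γ)⁻¹) := hl2.mono (by omega)
  have k3 : Len f L (δ : Γ) := hl3.mono (by omega)
  obtain ⟨c, hc, n0, hn0⟩ := exists_primes L (by omega)
  refine ⟨c, hc, n0, fun n hn => ?_⟩
  obtain ⟨S, hS1, hS2, hS3⟩ := hn0 n hn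
  set ks : List ℕ := S.toList.map (fun p => (p - 1) / 2) with hks
  have hodd : ∀ p ∈ S, 2 * ((p - 1) / 2) + 1 = p := by
    intro p hp
    obtain ⟨h1, h2⟩ := hS1 p hp
    have h3 := h1.eq_two_or_odd.resolve_left h2
    omega
  have hsum : (ks.map (fun k' => 2 * k' + 1)).sum = ∑ p ∈ S, p := by
    rw [hks, List.map_map, ← Finset.sum_map_toList S (fun p => p)]
    congr 1
    apply List.map_congr_left
    intro p hp
    exact hodd p (Finset.mem_toList.1 hp)
  have a1 := len_blks_sharp k1 k2 k3 ks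
  rw [hsum] at a1
  obtain ⟨w, hw, hwe⟩ := a1
  have e1 : ((blks τ δ (0 : ℤ) ks : H) : Γ) = blks (τ : Γ) (δ : Γ) (0 : ℤ) ks :=
    map_blks H.subtype τ δ ks 0
  have hfin : IsOfFinOrder (blks τ δ (0 : ℤ) ks) := htor _ (blks_mem hδ _ _)
  have e2 : orderOf (w.map f).prod = orderOf (blks τ δ (0 : ℤ) ks) := by
    rw [hwe, ← e1, Subgroup.orderOf_coe]
  have hpos : 0 < orderOf (blks τ δ (0 : ℤ) ks) := hfin.orderOf_pos
  refine ⟨w, hw.trans hS2, by rw [e2]; exact hpos, ?_⟩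
  rw [e2]
  refine hS3.trans ?_
  have h5 : (∏ p ∈ S, p) ∣ orderOf (blks τ δ (0 : ℤ) ks) := by
    apply Finset.prod_primes_dvd
    · intro p hp
      exact (hS1 p hp).1.prime
    · intro p hp
      have h6 := hch.dvd_of_pow ks 0 (orderOf (blks τ δ (0 : ℤ) ks)) (by
        rw [← map_blks, ← map_pow, pow_orderOf_eq_one, map_one]) ((p - 1) / 2) (by
          rw [hks, List.mem_map]
          exact ⟨p, Finset.mem_toList.2 hp, rfl⟩)
      rwa [hodd p hp] at h6
  exact_mod_cast Nat.le_of_dvd hpos h5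

/-- A star inside a torsion normal subgroup: sharp form. -/
theorem growth_star_sharp {Γ : Type*} [Group Γ] {k : ℕ} (f : Fin k → Γ)
    (hgen : Submonoid.closure (Set.range f) = ⊤) (H : Subgroup Γ) (φ : H →* Perm X)
    (N : Subgroup H) [N.Normal] (htor : ∀ g ∈ N, IsOfFinOrder g) (τ ε : H) (hε : ε ∈ N)
    {y a : X} (hst : Star (φ τ) (φ ε) y a) :
    ∃ c : ℝ, 0 < c ∧ ∃ n0 : ℕ, ∀ n : ℕ, n0 ≤ n → ∃ w : List (Fin k), w.length ≤ n ∧
      0 < orderOf (w.map f).prod ∧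
      Real.exp (c * √(n * Real.log n)) ≤ (orderOf (w.map f).prod : ℝ) := by
  have h := hst.chain
  rw [← map_dd, ← map_zpow] at h
  exact growth_sharp f hgen H φ N htor (τ ^ (4 : ℤ)) (dd τ ε) (dd_mem hε) h

end Pool.Agent.PG
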