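import Pool.Agent.PG.Growth

set_option autoImplicit false

/-!
A point `y` with infinite `g`-orbit and `g y = b y`, `b` finitary, gives a star.
-/

namespace Pool.Agent.PG

open Equiv

variable {X : Type*} {G : Type*} [Group G]

theorem to_star (φ : G →* Perm X) (N : Subgroup G) [hN : N.Normal]
    (hfin : ∀ n ∈ N, {x | φ n x ≠ x}.Finite) (g b : G) (hb : b ∈ N) (y : X)
    (hgb : φ g y = φ b y) (hinf : ∀ n : ℕ, 0 < n → φ (g ^ n) y ≠ y) :
    ∃ τ ε : G, ε ∈ N ∧ ∃ a, Star (φ τ) (φ ε) y a := by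
  set p : ℕ → X := fun n => φ (g ^ n) y with hp
  have hpadd : ∀ n m : ℕ, φ (g ^ n) (p m) = p (n + m) := by
    intro n m
    simp only [hp]
    rw [pow_add, map_mul, Perm.mul_apply]
  have hpne : ∀ n m : ℕ, 0 < m → p (n + m) ≠ p n := by
    intro n m hm h
    rw [← hpadd n m] at h
    have h2 : p m = y := by
      have h3 : p n = φ (g ^ n) y := rfl
      rw [h3] at h
      exact (φ (g ^ n)).injective h
    exact hinf m hm h2
  have hpinj : Function.Injective p := by
    intro n m h
    rcases lt_trichotomy n m with h1 | h1 | h1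
    · exfalso
      apply hpne n (m - n) (by omega)
      rw [show n + (m - n) = m by omega]
      exact h.symm
    · exact h1
    · exfalso
      apply hpne m (n - m) (by omega)
      rw [show m + (n - m) = n by omega]
      exact h
  obtain ⟨n0, hn0⟩ : ∃ n0 : ℕ, ∀ n, p n ∈ {x | φ b x ≠ x} → n < n0 := by
    have h1 : (p ⁻¹' {x | φ b x ≠ x}).Finite := (hfin b hb).preimage hpinj.injOn
    obtain ⟨M, hM⟩ := h1.bddAbove
    exact ⟨M + 1, fun n hn => by
      have := hM hn
      omega⟩
  set n1 := n0 + 1 with hn1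
  have hbfix : ∀ n, n1 ≤ n → φ b (p n) = p n := by
    intro n hn
    by_contra hne
    have := hn0 n hne
    omega
  set u := b⁻¹ * g with hu
  have huy : φ u y = y := by
    rw [hu, map_mul, Perm.mul_apply, hgb, map_inv, Perm.inv_eq_iff_eq]
  have hup : ∀ n, n1 ≤ n → φ u (p n) = p (n + 1) := by
    intro n hn
    have h1 : φ g (p n) = p (n + 1) := by
      have := hpadd 1 n
      rw [pow_one] at this
      rw [this, add_comm]
    rw [hu, map_mul, Perm.mul_apply, h1, map_inv, Perm.inv_eq_iff_eq, hbfix (n + 1) (by omega)]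
  have hupow : ∀ j : ℕ, φ (u ^ j) (p n1) = p (n1 + j) := by
    intro j
    induction j with
    | zero => simp
    | succ j ih =>
      rw [pow_succ', map_mul, Perm.mul_apply, ih, hup _ (by omega)]
      rfl
  have hex : ∀ n : ℕ, ∃ e ∈ N, φ e y = p n := by
    intro n
    induction n with
    | zero => exact ⟨1, N.one_mem, by simp [hp]⟩
    | succ n ih =>
      obtain ⟨e, heN, he⟩ := ih
      refine ⟨g ^ n * b * (g ^ n)⁻¹ * e, N.mul_mem (hN.conj_mem b hb (g ^ n)) heN, ?_⟩
      have h1 : p (n + 1) = φ (g ^ n) (φ g y) := by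
        simp only [hp]
        rw [pow_succ, map_mul, Perm.mul_apply]
      rw [h1, hgb, map_mul, Perm.mul_apply, he, map_mul, map_mul, Perm.mul_apply,
        Perm.mul_apply]
      congr 2
      rw [map_inv, Perm.inv_eq_iff_eq]
  obtain ⟨e, heN, he⟩ := hex n1
  have hzinj : Function.Injective (fun j : ℤ => φ (u ^ j) (p n1)) := by
    have key : ∀ i j : ℤ, i < j → φ (u ^ i) (p n1) ≠ φ (u ^ j) (p n1) := by
      intro i j hij h
      obtain ⟨r, hr⟩ : ∃ r : ℕ, j = i + r := ⟨(j - i).toNat, by omega⟩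
      subst hr
      rw [zpow_add, map_mul, Perm.mul_apply] at h
      have h2 := (φ (u ^ i)).injective h
      rw [zpow_natCast, hupow] at h2
      exact hpne n1 r (by omega) h2.symm
    intro i j h
    rcases lt_trichotomy i j with h1 | h1 | h1
    · exact absurd h (key i j h1)
    · exact h1
    · exact absurd h.symm (key j i h1)
  obtain ⟨M, hM⟩ : ∃ M : ℕ, ∀ j : ℤ, φ (u ^ j) (p n1) ∈ {x | φ e x ≠ x} → j.natAbs < M := by
    have h1 : ((fun j : ℤ => φ (u ^ j) (p n1)) ⁻¹' {x | φ e x ≠ x}).Finite :=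
      (hfin e heN).preimage hzinj.injOn
    have h2 := h1.image Int.natAbs
    obtain ⟨M, hM⟩ := h2.bddAbove
    refine ⟨M + 1, fun j hj => ?_⟩
    have := hM (Set.mem_image_of_mem _ hj)
    omega
  refine ⟨u ^ (M + 1), e, heN, p n1, ?_, he, ?_, ?_⟩
  · have : ∀ j : ℕ, φ (u ^ j) y = y := by
      intro j
      induction j with
      | zero => simp
      | succ j ih => rw [pow_succ', map_mul, Perm.mul_apply, ih, huy]
    exact this _
  · exact hinf n1 (by omega)
  · intro n hn
    have h1 : (φ (u ^ (M + 1)) ^ n) (p n1) = φ (u ^ (((M + 1 : ℕ) : ℤ) * n)) (p n1) := by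
      rw [zpow_mul, map_zpow, zpow_natCast]
    rw [h1]
    by_contra hne
    have h2 := hM _ hne
    rw [Int.natAbs_mul] at h2
    have h3 : 1 ≤ n.natAbs := by omega
    have h4 : M + 1 ≤ (M + 1) * n.natAbs := Nat.le_mul_of_pos_right _ (by omega)
    simp only [Int.natAbs_natCast] at h2
    omega

end Pool.Agent.PG
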