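import Pool.Agent.PG.GrowthSharp
import Pool.Agent.PG.ToStar
import Pool.Agent.PG.Bounded

set_option autoImplicit false

/-!
Finitary-by-abelian permutation groups: bounded torsion or period growth at least
`exp (c * sqrt (n log n))`.
-/

namespace Pool.Agent.PG

open Equiv
open scoped commutatorElement

/-- A finitary permutation has finite order. -/
theorem finitary_torsion {X : Type*} (σ : Perm X) (h : {x | σ x ≠ x}.Finite) :
    IsOfFinOrder σ := by
  classical
  set s : Set X := {x | σ x ≠ x} with hs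
  have hfin : Finite s := h
  have h1 : ∀ x, x ∈ s ↔ σ x ∈ s := by
    intro x
    constructor
    · intro hx hx2
      exact hx (σ.injective hx2)
    · intro hx hx2
      exact hx (congrArg σ hx2)
  have h2 : Perm.ofSubtype (σ.subtypePerm (p := fun x => x ∈ s) (fun x => (h1 x).symm)) = σ :=
    Perm.ofSubtype_subtypePerm _ (fun x hx => hx)
  rw [← h2]
  exact Perm.ofSubtype.isOfFinOrder (isOfFinOrder_of_finite _)

variable {X : Type*}

/-- The elements moving only finitely many points. -/
def finitary {H : Type*} [Group H] (φ : H →* Perm X) : Subgroup H where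
  carrier := {g | {x | φ g x ≠ x}.Finite}
  mul_mem' := by
    intro a b ha hb
    refine (Set.Finite.union ha hb).subset ?_
    intro x hx
    by_contra hne
    rw [Set.mem_union, not_or] at hne
    apply hx
    have h1 : φ a x = x := not_not.1 hne.1
    have h2 : φ b x = x := not_not.1 hne.2
    rw [map_mul, Perm.mul_apply, h2, h1]
  one_mem' := by
    have : {x | φ 1 x ≠ x} = ∅ := by
      refine Set.eq_empty_iff_forall_notMem.2 ?_
      intro x hx
      exact hx (by simp)
    change {x | φ 1 x ≠ x}.Finite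
    rw [this]
    exact Set.finite_empty
  inv_mem' := by
    intro a ha
    refine Set.Finite.subset ha ?_
    intro x hx h
    apply hx
    rw [map_inv, Perm.inv_eq_iff_eq, h]

theorem finitary_normal {H : Type*} [Group H] (φ : H →* Perm X) : (finitary φ).Normal := by
  constructor
  intro n hn g
  have h1 : ({x | φ n x ≠ x} : Set X).Finite := hn
  refine (h1.image (φ g)).subset ?_
  intro x hx
  refine ⟨φ g⁻¹ x, ?_, by simp⟩
  intro h
  apply hx
  rw [map_mul, map_mul, Perm.mul_apply, Perm.mul_apply, h]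
  simp

theorem main_sharp {Γ : Type*} [Group Γ] {k : ℕ} (f : Fin k → Γ)
    (hgen : Submonoid.closure (Set.range f) = ⊤)
    (H : Subgroup Γ) {m : ℕ} (t : Fin m → H) (ht : Subgroup.closure (Set.range t) = ⊤)
    (φ : H →* Perm X) (hφ : Function.Injective φ)
    (hcom : ∀ i j, {x : X | φ (t i) (φ (t j) x) ≠ φ (t j) (φ (t i) x)}.Finite)
    (hunb : ∀ M : ℕ, ∃ g : H, 0 < orderOf g ∧ M < orderOf g) :
    ∃ c : ℝ, 0 < c ∧ ∃ n0 : ℕ, ∀ n : ℕ, n0 ≤ n → ∃ w : List (Fin k), w.length ≤ n ∧
      0 < orderOf (w.map f).prod ∧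
      Real.exp (c * √(n * Real.log n)) ≤ (orderOf (w.map f).prod : ℝ) := by
  classical
  let _ : MulAction H X := MulAction.compHom X φ
  have hsm : ∀ (g : H) (x : X), g • x = φ g x := fun _ _ => rfl
  have : FaithfulSMul H X := ⟨by
    intro g g' h
    apply hφ
    ext x
    exact h x⟩
  have hN := finitary_normal φ
  set N := finitary φ with hNdef
  have hfin : ∀ n ∈ N, {x | φ n x ≠ x}.Finite := fun n hn => hn
  have htor : ∀ g ∈ N, IsOfFinOrder g := by
    intro g hg
    have h1 := finitary_torsion (φ g) (hfin g hg)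
    rw [isOfFinOrder_iff_pow_eq_one] at h1
    rw [isOfFinOrder_iff_pow_eq_one]
    obtain ⟨n, hn, h2⟩ := h1
    refine ⟨n, hn, hφ ?_⟩
    rw [map_pow, h2, map_one]
  have hcN : ∀ g h : H, ⁅g, h⁆ ∈ N := by
    apply commutator_le_of_gen N t ht
    intro i j
    change ({x | φ ⁅t i, t j⁆ x ≠ x} : Set X).Finite
    refine ((hcom i j).image (φ (t j * t i))).subset ?_
    intro x hx
    refine ⟨φ (t j * t i)⁻¹ x, ?_, by simp⟩
    intro h
    apply hx
    rw [← Perm.mul_apply, ← Perm.mul_apply, ← Perm.mul_apply, ← map_mul, ← map_mul,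
      ← map_mul, ← Perm.mul_apply, ← map_mul] at h
    have e1 : t i * t j * (t j * t i)⁻¹ = ⁅t i, t j⁆ := by
      rw [commutatorElement_def]
      group
    have e2 : t j * t i * (t j * t i)⁻¹ = 1 := by group
    rw [e1, e2, map_one] at h
    exact h
  by_contra hcon
  -- there is no star
  have hNS : ∀ (g : H) (y : X), g • y ∈ MulAction.orbit N y →
      ∃ n : ℕ, 0 < n ∧ g ^ n • y = y := by
    intro g y hgy
    by_contra hne
    push Not at hne
    obtain ⟨⟨b, hb⟩, hby⟩ := hgy
    have hby' : φ g y = φ b y := hby.symm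
    obtain ⟨τ, ε, hε, a, hst⟩ := to_star φ N hfin g b hb y hby' (fun n hn => hne n hn)
    exact hcon (growth_star_sharp f hgen H φ N htor τ ε hε hst)
  have hT : Subgroup.closure ((Finset.univ.image t : Finset H) : Set H) = ⊤ := by
    rw [Finset.coe_image, Finset.coe_univ, Set.image_univ]
    exact ht
  have hrows := rows_finite N hcN (fun n hn => hfin n hn) (Finset.univ.image t) hT hNS
  obtain ⟨E, hE, hEt⟩ := bounded_torsion t ht hcom N hcN hrows
  obtain ⟨g, hg0, hg1⟩ := hunb E
  have h1 := hEt g (orderOf_pos_iff.1 hg0)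
  have h2 := orderOf_dvd_of_pow_eq_one h1
  have h3 := Nat.le_of_dvd hE h2
  omega

end Pool.Agent.PG
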