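import Pool.Agent.PG.Growth

set_option autoImplicit false

/-!
Nested torsion: if `x` has finite order, `C, xC, ..., x^(p-1) C` are disjoint, `x^p` is trivial on
`C`, and `g` maps the support of `x` into `C`, then the period growth is at least exponential.
-/

namespace Pool.Agent.PG

open Equiv

variable {X : Type*} {H : Type*} [Group H]

/-- The nested products `x (g x g⁻¹) (g^2 x g^(-2)) ...`. -/
def nest (x g : H) : ℕ → H
  | 0 => 1
  | k + 1 => x * (g * nest x g k * g⁻¹)

structure NestData (φ : H →* Perm X) (x : H) (C : Set X) (p : ℕ) : Prop where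
  hp : 2 ≤ p
  hC : C.Nonempty
  hdis : ∀ i, 0 < i → i < p → ∀ z ∈ C, φ (x ^ i) z ∉ C
  hper : ∀ z ∈ C, φ (x ^ p) z = z

variable {φ : H →* Perm X} {x : H} {C : Set X} {p : ℕ}

theorem NestData.step_lt (h : NestData φ x C p) {Y : H} (hY : ∀ z, z ∉ C → φ Y z = z)
    (i : ℕ) (hi : 0 < i) (hip : i ≤ p) (z : X) (hz : z ∈ C) :
    φ ((x * Y) ^ i) z = φ (x ^ i) (φ Y z) := by
  have hYC : φ Y z ∈ C := by
    by_contra hne
    have h1 := hY _ hne
    have h2 := (φ Y).injective h1
    rw [h2] at hne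
    exact hne hz
  induction i with
  | zero => omega
  | succ i ih =>
    rcases Nat.eq_zero_or_pos i with h0 | h0
    · subst h0
      rw [zero_add, pow_one, pow_one, map_mul, Perm.mul_apply]
    · rw [pow_succ', map_mul, Perm.mul_apply, ih h0 (by omega), map_mul, Perm.mul_apply,
        hY _ (h.hdis i h0 (by omega) _ hYC), pow_succ' x, map_mul, Perm.mul_apply]

theorem maps_C {Y : H} (hY : ∀ z, z ∉ C → φ Y z = z) (m : ℕ) (z : X) (hz : z ∈ C) :
    φ (Y ^ m) z ∈ C := by
  induction m with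
  | zero => simpa using hz
  | succ m ih =>
    rw [pow_succ', map_mul, Perm.mul_apply]
    by_contra hne
    have h1 := hY _ hne
    have h2 := (φ Y).injective h1
    rw [h2] at hne
    exact hne ih

theorem NestData.step_p (h : NestData φ x C p) {Y : H} (hY : ∀ z, z ∉ C → φ Y z = z)
    (m : ℕ) (z : X) (hz : z ∈ C) : φ ((x * Y) ^ (p * m)) z = φ (Y ^ m) z := by
  have hp := h.hp
  induction m with
  | zero => simp
  | succ m ih =>
    rw [Nat.mul_succ, add_comm (p * m) p, pow_add, map_mul, Perm.mul_apply, ih,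
      h.step_lt hY p (by omega) le_rfl _ (maps_C hY m z hz), ← Perm.mul_apply (φ Y), ← map_mul,
      ← pow_succ', h.hper _ (maps_C hY (m + 1) z hz)]

theorem NestData.dvd (h : NestData φ x C p) (hφ : Function.Injective φ) {Y : H}
    (hY : ∀ z, z ∉ C → φ Y z = z) (s : ℕ) (hs : (x * Y) ^ s = 1) : p * orderOf Y ∣ s := by
  have hp := h.hp
  have hs2 : s = p * (s / p) + s % p := (Nat.div_add_mod s p).symm
  have hlt : s % p < p := Nat.mod_lt _ (by omega)
  have key : ∀ z ∈ C, φ ((x * Y) ^ (s % p)) (φ (Y ^ (s / p)) z) = z := by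
    intro z hz
    rw [← h.step_p hY (s / p) z hz, ← Perm.mul_apply, ← map_mul, ← pow_add, add_comm, ← hs2, hs,
      map_one, Perm.one_apply]
  have h0 : s % p = 0 := by
    by_contra hne
    obtain ⟨z, hz⟩ := h.hC
    have h1 := key z hz
    rw [h.step_lt hY (s % p) (by omega) hlt.le _ (maps_C hY _ z hz)] at h1
    have h2 : φ Y (φ (Y ^ (s / p)) z) ∈ C := by
      rw [← Perm.mul_apply, ← map_mul, ← pow_succ']
      exact maps_C hY _ z hz
    exact h.hdis (s % p) (by omega) hlt _ h2 (by rw [h1]; exact hz)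
  have h3 : Y ^ (s / p) = 1 := by
    apply hφ
    rw [map_one]
    ext z
    rw [Perm.one_apply]
    by_cases hz : z ∈ C
    · have := key z hz
      rwa [h0, pow_zero, map_one, Perm.one_apply] at this
    · have h4 : ∀ m : ℕ, φ (Y ^ m) z = z := by
        intro m
        induction m with
        | zero => simp
        | succ m ih => rw [pow_succ', map_mul, Perm.mul_apply, ih, hY z hz]
      exact h4 _
  have h4 := orderOf_dvd_of_pow_eq_one h3
  rw [hs2, h0, add_zero]
  exact Nat.mul_dvd_mul_left p h4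

theorem NestData.finOrder (h : NestData φ x C p) (hφ : Function.Injective φ) {Y : H}
    (hY : ∀ z, z ∉ C → φ Y z = z) (hx : IsOfFinOrder x) (hYf : IsOfFinOrder Y) :
    IsOfFinOrder (x * Y) := by
  have hp := h.hp
  rw [isOfFinOrder_iff_pow_eq_one]
  refine ⟨p * orderOf Y * orderOf x, ?_, ?_⟩
  · exact Nat.mul_pos (Nat.mul_pos (by omega) hYf.orderOf_pos) hx.orderOf_pos
  apply hφ
  rw [map_one]
  ext z
  rw [Perm.one_apply]
  -- every point of `C` is fixed by `(xY)^(p ord Y)`
  have hCfix : ∀ z ∈ C, φ ((x * Y) ^ (p * orderOf Y)) z = z := by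
    intro z hz
    rw [h.step_p hY _ z hz, pow_orderOf_eq_one, map_one, Perm.one_apply]
  by_cases hz : ∃ i : ℕ, φ ((x * Y) ^ i) z ∈ C
  · obtain ⟨i, hi⟩ := hz
    have h1 := hCfix _ hi
    rw [← Perm.mul_apply, ← map_mul, ← pow_add, add_comm, pow_add, map_mul, Perm.mul_apply] at h1
    have h2 := (φ ((x * Y) ^ i)).injective h1
    have h3 : ∀ m : ℕ, φ ((x * Y) ^ (p * orderOf Y * m)) z = z := by
      intro m
      induction m with
      | zero => simp
      | succ m ih => rw [Nat.mul_succ, pow_add, map_mul, Perm.mul_apply, h2, ih]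
    exact h3 _
  · push Not at hz
    have h1 : ∀ i : ℕ, φ ((x * Y) ^ i) z = φ (x ^ i) z := by
      intro i
      induction i with
      | zero => simp
      | succ i ih =>
        rw [pow_succ', map_mul, Perm.mul_apply, map_mul, Perm.mul_apply, hY _ (hz i), ih,
          pow_succ' x, map_mul, Perm.mul_apply]
    rw [h1, mul_comm, pow_mul, pow_orderOf_eq_one, one_pow, map_one, Perm.one_apply]

theorem nest_spec (h : NestData φ x C p) (hφ : Function.Injective φ) (hx : IsOfFinOrder x)
    (g : H) (hg : ∀ z, φ x z ≠ z → φ g z ∈ C) (k : ℕ) :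
    (∀ z, φ x z = z → φ (nest x g k) z = z) ∧ IsOfFinOrder (nest x g k) ∧
      p ^ k ∣ orderOf (nest x g k) := by
  have hp := h.hp
  induction k with
  | zero =>
    refine ⟨?_, ?_, ?_⟩
    · intro z _
      simp [nest]
    · rw [nest]
      exact IsOfFinOrder.one
    · simp
  | succ k ih =>
    obtain ⟨ih1, ih2, ih3⟩ := ih
    set Y : H := g * nest x g k * g⁻¹ with hYdef
    have hY : ∀ z, z ∉ C → φ Y z = z := by
      intro z hz
      have h1 : φ x (φ g⁻¹ z) = φ g⁻¹ z := by
        by_contra hne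
        have := hg _ hne
        rw [← Perm.mul_apply, ← map_mul, mul_inv_cancel, map_one, Perm.one_apply] at this
        exact hz this
      rw [hYdef, map_mul, map_mul, Perm.mul_apply, Perm.mul_apply, ih1 _ h1, ← Perm.mul_apply,
        ← map_mul, mul_inv_cancel, map_one, Perm.one_apply]
    have hCx : ∀ z, φ x z = z → z ∉ C := by
      intro z hz hzC
      have := h.hdis 1 (by omega) (by omega) z hzC
      rw [pow_one, hz] at this
      exact this hzC
    have hYo : orderOf Y = orderOf (nest x g k) := by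
      rw [hYdef]
      exact (MulAut.conj g).orderOf_eq (nest x g k)
    have hYf : IsOfFinOrder Y := by
      rw [← orderOf_pos_iff, hYo]
      exact ih2.orderOf_pos
    refine ⟨?_, ?_, ?_⟩
    · intro z hz
      rw [nest, map_mul, Perm.mul_apply, hY z (hCx z hz), hz]
    · exact h.finOrder hφ hY hx hYf
    · have h1 := h.dvd hφ hY (orderOf (x * Y)) (pow_orderOf_eq_one _)
      rw [hYo] at h1
      rw [pow_succ, mul_comm]
      exact (Nat.mul_dvd_mul_left p ih3).trans h1

section Len

variable {Γ : Type*} [Group Γ] {k : ℕ} {f : Fin k → Γ}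

theorem len_nest {x g : Γ} {L : ℕ} (h1 : Len f L x) (h2 : Len f L g) (m : ℕ) :
    ∃ y : Γ, nest x g m = y * (g⁻¹) ^ m ∧ Len f (m * (2 * L)) y := by
  have key : ∀ m : ℕ, nest x g m = (x * g) ^ m * (g⁻¹) ^ m := by
    intro m
    induction m with
    | zero => simp [nest]
    | succ m ih =>
      rw [nest, ih, pow_succ', pow_succ (g⁻¹)]
      simp only [mul_assoc]
  refine ⟨(x * g) ^ m, key m, ?_⟩
  have := (h1.mul h2).pow m
  refine this.mono (le_of_eq ?_)
  ring

end Len

/-- Nested torsion forces exponential period growth. -/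
theorem nest_growth {Γ : Type*} [Group Γ] {k : ℕ} (f : Fin k → Γ)
    (hgen : Submonoid.closure (Set.range f) = ⊤) (H : Subgroup Γ) (φ : H →* Perm X)
    (hφ : Function.Injective φ) (x g : H) (hx : IsOfFinOrder x) (C : Set X) (p : ℕ)
    (h : NestData φ x C p) (hg : ∀ z, φ x z ≠ z → φ g z ∈ C) :
    ∃ c : ℝ, 0 < c ∧ ∃ n0 : ℕ, ∀ n : ℕ, n0 ≤ n → ∃ w : List (Fin k), w.length ≤ n ∧
      0 < orderOf (w.map f).prod ∧ Real.exp (c * n) ≤ (orderOf (w.map f).prod : ℝ) := by
  obtain ⟨l1, hl1⟩ := Len.exists hgen (x : Γ)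
  obtain ⟨l2, hl2⟩ := Len.exists hgen (g : Γ)
  obtain ⟨l3, hl3⟩ := Len.exists hgen ((g : Γ)⁻¹)
  set L := l1 + l2 + l3 + 1 with hL
  have k1 : Len f L (x : Γ) := hl1.mono (by omega)
  have k2 : Len f L (g : Γ) := hl2.mono (by omega)
  have k3 : Len f L ((g : Γ)⁻¹) := hl3.mono (by omega)
  have hLpos : 0 < L := by omega
  have hLr : (0 : ℝ) < L := by exact_mod_cast hLpos
  have hlog2 : 0 < Real.log 2 := Real.log_pos (by norm_num)
  refine ⟨Real.log 2 / (6 * L), by positivity, 6 * L, fun n hn => ?_⟩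
  set m := n / (3 * L) with hm
  obtain ⟨y, hy1, hy2⟩ := len_nest k1 k2 m
  have hlen : Len f n (nest (x : Γ) (g : Γ) m) := by
    rw [hy1]
    refine (hy2.mul (k3.pow m)).mono ?_
    have h1 : m * (3 * L) ≤ n := Nat.div_mul_le_self n (3 * L)
    calc m * (2 * L) + m * L = m * (3 * L) := by ring
      _ ≤ n := h1
  obtain ⟨w, hw, hwe⟩ := hlen
  obtain ⟨_, s2, s3⟩ := nest_spec h hφ hx g hg m
  have e0 : ∀ j : ℕ, ((nest x g j : H) : Γ) = nest (x : Γ) (g : Γ) j := by
    intro j
    induction j with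
    | zero => simp [nest]
    | succ j ih => simp [nest, ih]
  have e2 : orderOf (w.map f).prod = orderOf (nest x g m) := by
    rw [hwe, ← e0, Subgroup.orderOf_coe]
  refine ⟨w, hw, by rw [e2]; exact s2.orderOf_pos, ?_⟩
  rw [e2]
  have h5 : 2 ^ m ≤ orderOf (nest x g m) :=
    (Nat.pow_le_pow_left h.hp m).trans (Nat.le_of_dvd s2.orderOf_pos s3)
  have h6 : (2 : ℝ) ^ m ≤ (orderOf (nest x g m) : ℝ) := by exact_mod_cast h5
  refine le_trans ?_ h6
  rw [← Real.le_log_iff_exp_le (by positivity), Real.log_pow]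
  have h7 : (n : ℝ) ≤ 6 * L * m := by
    have h8 : n < (m + 1) * (3 * L) := by
      have := Nat.lt_succ_self (n / (3 * L))
      exact (Nat.div_lt_iff_lt_mul (by omega)).1 this
    have h9 : 1 ≤ m := by
      rw [hm]
      exact (Nat.one_le_div_iff (by omega)).2 (by omega)
    have h10 : n ≤ 6 * L * m := by nlinarith
    exact_mod_cast h10
  rw [div_mul_eq_mul_div, div_le_iff₀ (by positivity)]
  nlinarith

end Pool.Agent.PG
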