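import Pool.Agent.PG.Nest

set_option autoImplicit false

/-!
A torsion element whose support can be moved into every nonempty open set.
-/

namespace Pool.Agent.PG

open Equiv

variable {X : Type*} [TopologicalSpace X] {H : Type*} [Group H]

theorem proximal_nest [T2Space X] (φ : H →* Perm X) (hφ : Function.Injective φ)
    (hcont : ∀ h : H, Continuous (φ h))
    (x : H) (hx : IsOfFinOrder x) (hx1 : x ≠ 1)
    (hcomp : ∀ U : Set X, IsOpen U → U.Nonempty → ∃ h : H, ∀ z, φ x z ≠ z → φ h z ∈ U) :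
    ∃ (g : H) (C : Set X) (p : ℕ), NestData φ x C p ∧ ∀ z, φ x z ≠ z → φ g z ∈ C := by
  classical
  set M := orderOf x with hM
  have hMpos : 0 < M := hx.orderOf_pos
  have hper : ∀ z, Function.IsPeriodicPt (φ x) M z := by
    intro z
    have h1 : φ (x ^ M) z = z := by rw [pow_orderOf_eq_one, map_one, Perm.one_apply]
    rw [map_pow] at h1
    exact (Perm.iterate_eq_pow (φ x) M ▸ h1 : (φ x)^[M] z = z)
  have hmp : ∀ z, 0 < Function.minimalPeriod (φ x) z ∧ Function.minimalPeriod (φ x) z ≤ M :=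
    fun z => ⟨(hper z).minimalPeriod_pos hMpos, (hper z).minimalPeriod_le hMpos⟩
  have hpow : ∀ (i : ℕ) (z : X), φ (x ^ i) z = (φ x)^[i] z := by
    intro i z
    rw [map_pow, Perm.iterate_eq_pow]
  -- a point with maximal period
  obtain ⟨z0, hz0⟩ : ∃ z, φ x z ≠ z := by
    by_contra hne
    push Not at hne
    apply hx1
    apply hφ
    rw [map_one]
    ext z
    exact hne z
  obtain ⟨z, hz⟩ : ∃ z, ∀ z', Function.minimalPeriod (φ x) z' ≤ Function.minimalPeriod (φ x) z := by
    have hb : (Set.range (fun z => Function.minimalPeriod (φ x) z)).Finite :=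
      (Set.finite_Iic M).subset (by
        rintro _ ⟨z, rfl⟩
        exact (hmp z).2)
    obtain ⟨m, ⟨z, rfl⟩, hm⟩ := Set.exists_max_image _ id hb ⟨_, Set.mem_range_self z0⟩
    exact ⟨z, fun z' => hm _ (Set.mem_range_self z')⟩
  set p := Function.minimalPeriod (φ x) z with hp
  have hp2 : 2 ≤ p := by
    have h1 := hz z0
    have h2 := (hmp z0).1
    have h3 : Function.minimalPeriod (φ x) z0 ≠ 1 := by
      rw [Ne, Function.minimalPeriod_eq_one_iff_isFixedPt]
      exact hz0
    omega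
  -- a small neighbourhood
  have hnb : ∀ i : ℕ, ∃ A : Set X, IsOpen A ∧ z ∈ A ∧ (0 < i → i < p → ∀ z' ∈ A,
      φ (x ^ i) z' ∉ A) := by
    intro i
    by_cases hi : 0 < i ∧ i < p
    · have hne : z ≠ φ (x ^ i) z := by
        intro h
        rw [hpow] at h
        exact Function.not_isPeriodicPt_of_pos_of_lt_minimalPeriod hi.1.ne' hi.2 h.symm
      obtain ⟨A, B, hA, hB, hzA, hzB, hAB⟩ := t2_separation hne
      refine ⟨A ∩ φ (x ^ i) ⁻¹' B, hA.inter (hB.preimage (hcont _)), ⟨hzA, hzB⟩, ?_⟩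
      intro _ _ z' hz' hz2
      exact Set.disjoint_left.1 hAB hz2.1 hz'.2
    · exact ⟨Set.univ, isOpen_univ, trivial, fun h1 h2 => absurd ⟨h1, h2⟩ hi⟩
  choose A hA1 hA2 hA3 using hnb
  set C : Set X := ⋂ i ∈ Finset.range p, A i with hC
  have hCopen : IsOpen C := isOpen_biInter_finset (fun i _ => hA1 i)
  have hzC : z ∈ C := by
    rw [hC, Set.mem_iInter₂]
    exact fun i _ => hA2 i
  have hdis : ∀ i, 0 < i → i < p → ∀ z' ∈ C, φ (x ^ i) z' ∉ C := by
    intro i h1 h2 z' hz' hz2
    rw [hC, Set.mem_iInter₂] at hz' hz2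
    exact hA3 i h1 h2 z' (hz' i (Finset.mem_range.2 h2)) (hz2 i (Finset.mem_range.2 h2))
  have hdata : NestData φ x C p := by
    refine ⟨hp2, ⟨z, hzC⟩, hdis, ?_⟩
    intro z' hz'
    have h1 : p ≤ Function.minimalPeriod (φ x) z' := by
      by_contra hlt
      push Not at hlt
      have h2 := hdis _ (hmp z').1 hlt z' hz'
      rw [hpow, Function.iterate_minimalPeriod] at h2
      exact h2 hz'
    have h2 : Function.minimalPeriod (φ x) z' = p := le_antisymm (hz z') h1
    rw [hpow, ← h2, Function.iterate_minimalPeriod]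
  obtain ⟨g, hg⟩ := hcomp C hCopen ⟨z, hzC⟩
  exact ⟨g, C, p, hdata, hg⟩

end Pool.Agent.PG
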