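import Pool.Agent.PG.GrowthSharp
import Pool.Agent.PG.ToStar
import Pool.Agent.PG.Bounded
import Pool.Agent.PG.Main

set_option autoImplicit false

/-!
Groups of permutations that agree with a `Q`-action off finite sets (lampshuffler type).
-/

namespace Pool.Agent.PG

open Equiv

variable {X : Type*} {H : Type*} [Group H] {Q : Type*} [Group Q] [MulAction Q X]

/-- If the orbit of `y` avoids the exceptional set, `H` acts on it through `Q`. -/
theorem avoid_orbit (φ : H →* Perm X) (π : H →* Q) {m : ℕ} (t : Fin m → H)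
    (ht : Subgroup.closure (Set.range t) = ⊤) (D : Set X)
    (hD : ∀ i x, x ∉ D → φ (t i) x = π (t i) • x ∧ φ (t i)⁻¹ x = (π (t i))⁻¹ • x)
    (y : X) (hy : ∀ h : H, φ h y ∉ D) (h : H) : φ h y = π h • y := by
  have hh : h ∈ Subgroup.closure (Set.range t) := by rw [ht]; trivial
  induction hh using Subgroup.closure_induction_left with
  | one => simp
  | mul_left s hs h0 _ ih =>
    obtain ⟨i, rfl⟩ := hs
    rw [map_mul, Perm.mul_apply, (hD i _ (hy h0)).1, ih, map_mul, mul_smul]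
  | inv_mul_cancel s hs h0 _ ih =>
    obtain ⟨i, rfl⟩ := hs
    rw [map_mul, Perm.mul_apply, (hD i _ (hy h0)).2, ih, map_mul, map_inv, mul_smul]

/-- The last visit of the exceptional set. -/
theorem last_visit (φ : H →* Perm X) (π : H →* Q) {m : ℕ} (t : Fin m → H)
    (ht : Subgroup.closure (Set.range t) = ⊤) (D : Set X)
    (hD : ∀ i x, x ∉ D → φ (t i) x = π (t i) • x ∧ φ (t i)⁻¹ x = (π (t i))⁻¹ • x)
    (y : X) (h : H) :
    ∃ d ∈ insert y ((⋃ i, (φ (t i)) '' D) ∪ ⋃ i, (φ (t i)⁻¹) '' D), ∃ h' : H,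
      φ h' y = d ∧ φ h y = π (h * h'⁻¹) • d := by
  have hh : h ∈ Subgroup.closure (Set.range t) := by rw [ht]; trivial
  induction hh using Subgroup.closure_induction_left with
  | one => exact ⟨y, Set.mem_insert _ _, 1, by simp, by simp⟩
  | mul_left s hs h0 _ ih =>
    obtain ⟨i, rfl⟩ := hs
    obtain ⟨d, hd, h', h1, h2⟩ := ih
    by_cases hz : φ h0 y ∈ D
    · refine ⟨φ (t i) (φ h0 y), ?_, t i * h0, ?_, ?_⟩
      · refine Set.mem_insert_of_mem _ (Or.inl (Set.mem_iUnion.2 ⟨i, _, hz, rfl⟩))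
      · rw [map_mul, Perm.mul_apply]
      · rw [mul_inv_cancel, map_one, one_smul, map_mul, Perm.mul_apply]
    · refine ⟨d, hd, h', h1, ?_⟩
      rw [map_mul, Perm.mul_apply, (hD i _ hz).1, h2, mul_assoc, map_mul π (t i), mul_smul]
  | inv_mul_cancel s hs h0 _ ih =>
    obtain ⟨i, rfl⟩ := hs
    obtain ⟨d, hd, h', h1, h2⟩ := ih
    by_cases hz : φ h0 y ∈ D
    · refine ⟨φ (t i)⁻¹ (φ h0 y), ?_, (t i)⁻¹ * h0, ?_, ?_⟩
      · refine Set.mem_insert_of_mem _ (Or.inr (Set.mem_iUnion.2 ⟨i, _, hz, rfl⟩))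
      · rw [map_mul, Perm.mul_apply]
      · rw [mul_inv_cancel, map_one, one_smul, map_mul, Perm.mul_apply]
    · refine ⟨d, hd, h', h1, ?_⟩
      rw [map_mul, Perm.mul_apply, (hD i _ hz).2, h2, mul_assoc, map_mul π (t i)⁻¹, map_inv,
        mul_smul]

/-- An element over an element of infinite order has few points with finite orbits. -/
theorem few_finite (φ : H →* Perm X) (π : H →* Q)
    (hπ : ∀ h : H, {x : X | φ h x ≠ π h • x}.Finite)
    (ha : ∀ q : Q, ¬ IsOfFinOrder q → {x : X | ∃ n : ℕ, 0 < n ∧ q ^ n • x = x}.Finite)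
    (g : H) (hg : ¬ IsOfFinOrder (π g)) :
    {x : X | ∃ n : ℕ, 0 < n ∧ φ (g ^ n) x = x}.Finite := by
  set E : Set X := {x : X | φ g x ≠ π g • x} with hE
  have hEfin : E.Finite := hπ g
  have hadd : ∀ (i j : ℕ) (x : X), φ (g ^ (i + j)) x = φ (g ^ i) (φ (g ^ j) x) := by
    intro i j x
    rw [pow_add, map_mul, Perm.mul_apply]
  have hmulfix : ∀ (n : ℕ) (x : X), φ (g ^ n) x = x → ∀ j : ℕ, φ (g ^ (n * j)) x = x := by
    intro n x hx j
    induction j with
    | zero => simp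
    | succ j ih => rw [Nat.mul_succ, hadd, hx, ih]
  -- the finite orbits through `E`
  have h1 : (⋃ e ∈ E ∩ {x : X | ∃ n : ℕ, 0 < n ∧ φ (g ^ n) x = x},
      Set.range (fun i : ℕ => φ (g ^ i) e)).Finite := by
    refine (hEfin.subset Set.inter_subset_left).biUnion ?_
    rintro e ⟨_, n, hn, hne⟩
    refine ((Set.finite_Iio n).image (fun i : ℕ => φ (g ^ i) e)).subset ?_
    rintro _ ⟨i, rfl⟩
    refine ⟨i % n, Nat.mod_lt _ hn, ?_⟩
    change φ (g ^ (i % n)) e = φ (g ^ i) e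
    conv_rhs => rw [← Nat.mod_add_div i n, hadd, hmulfix n e hne]
  refine (h1.union (ha (π g) hg)).subset ?_
  rintro x ⟨n, hn, hx⟩
  by_cases hj : ∃ j : ℕ, φ (g ^ j) x ∈ E
  · left
    obtain ⟨j, hj⟩ := hj
    refine Set.mem_biUnion (x := φ (g ^ j) x) ⟨hj, n, hn, ?_⟩ ⟨n * j - j, ?_⟩
    · rw [← hadd, add_comm, hadd, hx]
    · have hle : j ≤ n * j := Nat.le_mul_of_pos_left j hn
      change φ (g ^ (n * j - j)) (φ (g ^ j) x) = x
      rw [← hadd, Nat.sub_add_cancel hle, hmulfix n x hx]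
  · right
    push Not at hj
    have h2 : ∀ j : ℕ, φ (g ^ j) x = (π g) ^ j • x := by
      intro j
      induction j with
      | zero => simp
      | succ j ih =>
        have h3 : φ g (φ (g ^ j) x) = π g • φ (g ^ j) x := by
          by_contra hne
          exact hj j hne
        rw [pow_succ', map_mul, Perm.mul_apply, h3, ih, pow_succ' (π g), mul_smul]
    refine ⟨n, hn, ?_⟩
    rw [← h2, hx]

/-- An infinite row contains a point with an infinite orbit that stays in the row. -/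
theorem row_star (φ : H →* Perm X) (π : H →* Q) {m : ℕ} (t : Fin m → H)
    (ht : Subgroup.closure (Set.range t) = ⊤)
    (hπ : ∀ h : H, {x : X | φ h x ≠ π h • x}.Finite)
    (ha : ∀ q : Q, ¬ IsOfFinOrder q → {x : X | ∃ n : ℕ, 0 < n ∧ q ^ n • x = x}.Finite)
    (hQ : ∀ F : Subgroup Q, (∀ q ∈ F, IsOfFinOrder q) → Finite F)
    (y : X) (hy : (Set.range (fun n : π.ker => φ n y)).Infinite) :
    ∃ g b : H, b ∈ π.ker ∧ ∃ a : X, φ g a = φ b a ∧ ∀ n : ℕ, 0 < n → φ (g ^ n) a ≠ a := by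
  classical
  set R : Set X := Set.range (fun n : π.ker => φ n y) with hR
  set D : Set X := (⋃ i, {x : X | φ (t i) x ≠ π (t i) • x}) ∪
    ⋃ i, {x : X | φ (t i)⁻¹ x ≠ π (t i)⁻¹ • x} with hDdef
  have hDfin : D.Finite := (Set.finite_iUnion (fun i => hπ (t i))).union
    (Set.finite_iUnion (fun i => hπ (t i)⁻¹))
  have hD : ∀ i x, x ∉ D → φ (t i) x = π (t i) • x ∧ φ (t i)⁻¹ x = (π (t i))⁻¹ • x := by
    intro i x hx
    rw [hDdef, Set.mem_union, not_or] at hx
    constructor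
    · by_contra hne
      exact hx.1 (Set.mem_iUnion.2 ⟨i, hne⟩)
    · by_contra hne
      rw [← map_inv] at hne
      exact hx.2 (Set.mem_iUnion.2 ⟨i, hne⟩)
  have hlast := last_visit φ π t ht D hD y
  set D1 : Set X := insert y ((⋃ i, (φ (t i)) '' D) ∪ ⋃ i, (φ (t i)⁻¹) '' D) with hD1
  have hD1fin : D1.Finite := ((Set.finite_iUnion (fun i => hDfin.image _)).union
    (Set.finite_iUnion (fun i => hDfin.image _))).insert y
  -- data for the points of the row
  have hdata : ∀ z ∈ R, ∃ d ∈ D1, ∃ h' : H, φ h' y = d ∧ z = (π h')⁻¹ • d := by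
    rintro _ ⟨n, rfl⟩
    obtain ⟨d, hd, h', h1, h2⟩ := hlast n
    refine ⟨d, hd, h', h1, ?_⟩
    have h3 : π (n : H) = 1 := n.2
    rw [map_mul, h3, one_mul, map_inv] at h2
    exact h2
  choose! dd' hdd' hh' h1 h2 using hdata
  -- an infinite part of the row with the same `d`
  obtain ⟨d, hd⟩ : ∃ d ∈ D1, {z ∈ R | dd' z = d}.Infinite := by
    by_contra hne
    push Not at hne
    apply hy
    refine (hD1fin.biUnion (fun d hd => hne d hd)).subset ?_
    intro z hz
    exact Set.mem_biUnion (hdd' z hz) ⟨hz, rfl⟩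
  obtain ⟨hd1, hinf⟩ := hd
  obtain ⟨z0, hz0R, hz0d⟩ := hinf.nonempty
  -- the image of the stabilizer of `y`
  set T : Subgroup Q := Subgroup.map π ((MulAction.stabilizer (Perm X) y).comap φ) with hT
  have hstab : ∀ g : H, φ g y = y → π g ∈ T := fun g hg => ⟨g, hg, rfl⟩
  have hex : ∃ g : H, φ g y = y ∧ ¬ IsOfFinOrder (π g) := by
    by_contra hne
    push Not at hne
    have hTt : ∀ q ∈ T, IsOfFinOrder q := by
      rintro _ ⟨g, hg, rfl⟩
      exact hne g hg
    have hTfin := hQ T hTt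
    apply hinf
    refine (Set.finite_range (fun s : T => (s : Q) • z0)).subset ?_
    rintro z ⟨hzR, hzd⟩
    have e1 := h1 z hzR
    have e2 := h2 z hzR
    have e3 := h1 z0 hz0R
    have e4 := h2 z0 hz0R
    rw [hzd] at e1 e2
    rw [hz0d] at e3 e4
    have e5 : φ ((hh' z)⁻¹ * hh' z0) y = y := by
      rw [map_mul, Perm.mul_apply, e3, ← e1, ← Perm.mul_apply, ← map_mul, inv_mul_cancel, map_one,
        Perm.one_apply]
    refine ⟨⟨_, hstab _ e5⟩, ?_⟩
    change π ((hh' z)⁻¹ * hh' z0) • z0 = z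
    calc π ((hh' z)⁻¹ * hh' z0) • z0 = (π (hh' z))⁻¹ • (π (hh' z0) • z0) := by
          rw [map_mul, map_inv, mul_smul]
      _ = (π (hh' z))⁻¹ • d := by rw [eq_inv_smul_iff.1 e4]
      _ = z := e2.symm
  obtain ⟨g, hgy, hginf⟩ := hex
  have hfew := few_finite φ π hπ ha g hginf
  obtain ⟨a, haR, haF⟩ := (hy.sdiff hfew).nonempty
  obtain ⟨n, rfl⟩ := haR
  refine ⟨g, g * n * g⁻¹ * (n : H)⁻¹, ?_, φ n y, ?_, ?_⟩
  · have h3 : π (n : H) = 1 := n.2
    rw [MonoidHom.mem_ker]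
    simp [h3]
  · have h3 : φ g⁻¹ y = y := by
      rw [map_inv, Perm.inv_eq_iff_eq, hgy]
    have h4 : φ (n : H)⁻¹ (φ n y) = y := by
      rw [← Perm.mul_apply, ← map_mul, inv_mul_cancel, map_one, Perm.one_apply]
    change φ g (φ n y) = φ (g * n * g⁻¹ * (n : H)⁻¹) (φ n y)
    rw [map_mul φ (g * n * g⁻¹), Perm.mul_apply, h4, map_mul φ (g * n), Perm.mul_apply, h3,
      map_mul, Perm.mul_apply]
  · intro k hk hne
    exact haF ⟨k, hk, hne⟩

end Pool.Agent.PG
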