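import Pool.Agent.PG.Shuffle

set_option autoImplicit false

/-!
The dichotomy for lampshuffler type groups.
-/

namespace Pool.Agent.PG

open Equiv MulAction

variable {X : Type*}

theorem main_shuffle {Γ : Type*} [Group Γ] {k : ℕ} (f : Fin k → Γ)
    (hgen : Submonoid.closure (Set.range f) = ⊤)
    (H : Subgroup Γ) {m : ℕ} (t : Fin m → H) (ht : Subgroup.closure (Set.range t) = ⊤)
    {Q : Type*} [Group Q] [MulAction Q X]
    (hQ : ∃ B : ℕ, ∀ F : Subgroup Q, (∀ q ∈ F, IsOfFinOrder q) → Finite F ∧ Nat.card F ≤ B)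
    (ha : ∀ q : Q, ¬ IsOfFinOrder q → {x : X | ∃ n : ℕ, 0 < n ∧ q ^ n • x = x}.Finite)
    (φ : H →* Perm X) (hφ : Function.Injective φ) (π : H →* Q)
    (hπ : ∀ h : H, {x : X | φ h x ≠ π h • x}.Finite)
    (hunb : ∀ M : ℕ, ∃ g : H, 0 < orderOf g ∧ M < orderOf g) :
    ∃ c : ℝ, 0 < c ∧ ∃ n0 : ℕ, ∀ n : ℕ, n0 ≤ n → ∃ w : List (Fin k), w.length ≤ n ∧
      0 < orderOf (w.map f).prod ∧
      Real.exp (c * √(n * Real.log n)) ≤ (orderOf (w.map f).prod : ℝ) := by
  classical
  by_contra hcon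
  let _ : MulAction H X := MulAction.compHom X φ
  have hker : ∀ n : H, n ∈ π.ker → π n = 1 := fun n hn => hn
  have hfin : ∀ n ∈ π.ker, {x | φ n x ≠ x}.Finite := by
    intro n hn
    have h1 := hπ n
    rw [hker n hn] at h1
    simpa using h1
  have htor : ∀ g ∈ π.ker, IsOfFinOrder g := by
    intro g hg
    have h1 := finitary_torsion (φ g) (hfin g hg)
    rw [isOfFinOrder_iff_pow_eq_one] at h1
    rw [isOfFinOrder_iff_pow_eq_one]
    obtain ⟨n, hn, h2⟩ := h1
    refine ⟨n, hn, hφ ?_⟩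
    rw [map_pow, h2, map_one]
  obtain ⟨B, hB⟩ := hQ
  have hrows : ∀ y : X, (orbit π.ker y).Finite := by
    intro y
    by_contra hinf
    obtain ⟨g, b, hb, a, hab, hao⟩ := row_star φ π t ht hπ ha (fun F hF => (hB F hF).1) y hinf
    obtain ⟨τ, ε, hε, a', hst⟩ := to_star φ π.ker hfin g b hb a hab hao
    exact hcon (growth_star_sharp f hgen H φ π.ker htor τ ε hε hst)
  set D : Set X := (⋃ i, {x : X | φ (t i) x ≠ π (t i) • x}) ∪
    ⋃ i, {x : X | φ (t i)⁻¹ x ≠ π (t i)⁻¹ • x} with hDdef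
  have hDfin : D.Finite := (Set.finite_iUnion (fun i => hπ (t i))).union
    (Set.finite_iUnion (fun i => hπ (t i)⁻¹))
  have hD : ∀ i x, x ∉ D → φ (t i) x = π (t i) • x ∧ φ (t i)⁻¹ x = (π (t i))⁻¹ • x := by
    intro i x hx
    rw [hDdef, Set.mem_union, not_or] at hx
    constructor
    · by_contra hne
      exact hx.1 (Set.mem_iUnion.2 ⟨i, hne⟩)
    · by_contra hne
      rw [← map_inv] at hne
      exact hx.2 (Set.mem_iUnion.2 ⟨i, hne⟩)
  set P : ℕ := ∏ d ∈ hDfin.toFinset, (orbit π.ker d).ncard.factorial with hP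
  have hPpos : 0 < P := Finset.prod_pos (fun d _ => Nat.factorial_pos _)
  have hNexp : ∀ n ∈ π.ker, n ^ P = 1 := by
    intro n hn
    apply hφ
    rw [map_one]
    ext x
    rw [Perm.one_apply]
    by_cases hx : ∃ h : H, φ h x ∈ D
    · obtain ⟨h, hh⟩ := hx
      have h2 : orbit π.ker x = (fun z => h⁻¹ • z) '' orbit π.ker (h • x) := by
        rw [← orbit_smul_eq, inv_smul_smul]
      have h3 : (orbit π.ker x).ncard = (orbit π.ker (h • x)).ncard := by
        rw [h2, Set.ncard_image_of_injective _ (MulAction.injective h⁻¹)]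
      have hh' : h • x ∈ D := hh
      exact pow_factorial_smul π.ker x (hrows x) (orbit π.ker (h • x)).ncard h3.le n hn P
        (Finset.dvd_prod_of_mem _ (by simpa using hh'))
    · push Not at hx
      have h1 := avoid_orbit φ π t ht D hD x hx (n ^ P)
      rw [h1, map_pow, hker n hn, one_pow, one_smul]
  obtain ⟨g, hg0, hg1⟩ := hunb (B.factorial * P)
  have hgf : IsOfFinOrder g := orderOf_pos_iff.1 hg0
  have hqf : IsOfFinOrder (π g) := π.isOfFinOrder hgf
  have h1 : orderOf (π g) ≤ B := by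
    have h2 := (hB (Subgroup.zpowers (π g)) (by
      rintro _ ⟨z, rfl⟩
      exact hqf.zpow)).2
    rwa [Nat.card_zpowers] at h2
  have h3 : orderOf (π g) ∣ B.factorial := Nat.dvd_factorial hqf.orderOf_pos h1
  have h4 : g ^ B.factorial ∈ π.ker := by
    rw [MonoidHom.mem_ker, map_pow]
    exact orderOf_dvd_iff_pow_eq_one.1 h3
  have h5 := hNexp _ h4
  rw [← pow_mul] at h5
  have h6 := Nat.le_of_dvd (Nat.mul_pos (Nat.factorial_pos B) hPpos) (orderOf_dvd_of_pow_eq_one h5)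
  omega

end Pool.Agent.PG
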