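import Pool.Agent.PG.Chain

set_option autoImplicit false

/-!
From a point `y` fixed by `T` and a permutation `e` that moves `y` to `a` and fixes all `T^n a`,
`n ≠ 0`, to a chain of local 3-cycles.
-/

namespace Pool.Agent.PG

open Equiv

variable {X : Type*}

/-- `T` fixes `y`, `e` maps `y` to `a` and fixes `T^n a` for all `n ≠ 0`. -/
structure Star (T e : Perm X) (y a : X) : Prop where
  hT : T y = y
  he : e y = a
  hne : a ≠ y
  hfix : ∀ n : ℤ, n ≠ 0 → e ((T ^ n) a) = (T ^ n) a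

variable {T e : Perm X} {y a : X}

theorem zpow_fix (hT : T y = y) (n : ℤ) : (T ^ n) y = y := by
  have h : T ∈ MulAction.stabilizer (Perm X) y := hT
  exact (Subgroup.zpow_mem _ h n)

theorem zpow_add_apply (T : Perm X) (n m : ℤ) (x : X) : (T ^ n) ((T ^ m) x) = (T ^ (n + m)) x := by
  rw [zpow_add, Perm.mul_apply]

theorem Star.inj (h : Star T e y a) {n m : ℤ} (hnm : (T ^ n) a = (T ^ m) a) : n = m := by
  by_contra hne
  have h1 : (T ^ (n - m)) a = a := by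
    have := congrArg (T ^ (-m)) hnm
    rw [zpow_add_apply, zpow_add_apply] at this
    rw [sub_eq_neg_add, this]
    simp
  have h2 := h.hfix (n - m) (by omega)
  rw [h1] at h2
  exact h.hne (e.injective (h2.trans h.he.symm))

/-- `e_1^(-1) e_0` -/
def uu {Gr : Type*} [Group Gr] (T e : Gr) : Gr := T * e⁻¹ * T⁻¹ * e

theorem Star.u1 (h : Star T e y a) : uu T e y = a := by
  simp only [uu, Perm.mul_apply, h.he]
  have h1 : T⁻¹ a = (T ^ (-1 : ℤ)) a := by simp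
  have h2 : e⁻¹ ((T ^ (-1 : ℤ)) a) = (T ^ (-1 : ℤ)) a := by
    rw [Perm.inv_eq_iff_eq, h.hfix (-1) (by omega)]
  rw [h1, h2]
  simp

theorem Star.u2 (h : Star T e y a) : uu T e ((T ^ (1 : ℤ)) a) = y := by
  simp only [uu, Perm.mul_apply]
  rw [h.hfix 1 (by omega)]
  have h2 : e⁻¹ a = y := by rw [Perm.inv_eq_iff_eq, h.he]
  simp [h2, h.hT]

theorem Star.u3 (h : Star T e y a) (n : ℤ) (h0 : n ≠ 0) (h1 : n ≠ 1) :
    uu T e ((T ^ n) a) = (T ^ n) a := by
  simp only [uu, Perm.mul_apply]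
  rw [h.hfix n h0]
  have e1 : T⁻¹ ((T ^ n) a) = (T ^ (n - 1)) a := by
    rw [sub_eq_neg_add, zpow_add, Perm.mul_apply]
    simp
  have e2 : e⁻¹ ((T ^ (n - 1)) a) = (T ^ (n - 1)) a := by
    rw [Perm.inv_eq_iff_eq, h.hfix (n - 1) (by omega)]
  rw [e1, e2]
  have : T ((T ^ (n - 1)) a) = (T ^ (1 : ℤ)) ((T ^ (n - 1)) a) := by simp
  rw [this, zpow_add_apply]
  congr 2
  omega

/-- conjugate by `T^j` acting on `T^n a` -/
theorem conj_apply (T g : Perm X) (j n : ℤ) (a : X) :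
    (T ^ j * g * T ^ (-j)) ((T ^ n) a) = (T ^ j) (g ((T ^ (n - j)) a)) := by
  simp only [Perm.mul_apply]
  rw [zpow_add_apply, neg_add_eq_sub]

theorem conj_apply_fix (hT : T y = y) (g : Perm X) (j : ℤ) :
    (T ^ j * g * T ^ (-j)) y = (T ^ j) (g y) := by
  simp only [Perm.mul_apply]
  rw [zpow_fix hT]

/-- `T^2 u T^(-2)` -/
def vv {Gr : Type*} [Group Gr] (T e : Gr) : Gr := T ^ (2 : ℤ) * uu T e * T ^ (-2 : ℤ)

/-- the commutator of `u` and `T^2 u T^(-2)` -/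
def cc {Gr : Type*} [Group Gr] (T e : Gr) : Gr := uu T e * vv T e * (uu T e)⁻¹ * (vv T e)⁻¹

theorem cc_apply (T e : Perm X) (x : X) :
    cc T e x = uu T e (vv T e ((uu T e)⁻¹ ((vv T e)⁻¹ x))) := rfl

theorem Star.v1 (h : Star T e y a) :
    vv T e y = (T ^ (2 : ℤ)) a := by
  rw [vv, conj_apply_fix h.hT, h.u1]

theorem Star.v2 (h : Star T e y a) :
    vv T e ((T ^ (3 : ℤ)) a) = y := by
  rw [vv, conj_apply, show (3 : ℤ) - 2 = 1 by norm_num, h.u2, zpow_fix h.hT]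

theorem Star.v3 (h : Star T e y a) (n : ℤ) (h0 : n ≠ 2) (h1 : n ≠ 3) :
    vv T e ((T ^ n) a) = (T ^ n) a := by
  rw [vv, conj_apply, h.u3 (n - 2) (by omega) (by omega), zpow_add_apply]
  congr 2
  omega

theorem Star.c1 (h : Star T e y a) : cc T e y = a := by
  rw [cc_apply]
  have e1 : (vv T e)⁻¹ y = (T ^ (3 : ℤ)) a := by
    rw [Perm.inv_eq_iff_eq, h.v2]
  have e2 : (uu T e)⁻¹ ((T ^ (3 : ℤ)) a) = (T ^ (3 : ℤ)) a := by
    rw [Perm.inv_eq_iff_eq, h.u3 3 (by omega) (by omega)]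
  rw [e1, e2, h.v2, h.u1]

theorem Star.c2 (h : Star T e y a) : cc T e a = (T ^ (2 : ℤ)) a := by
  rw [cc_apply]
  have e0 : (T ^ (0 : ℤ)) a = a := by simp
  have e1 : (vv T e)⁻¹ a = a := by
    rw [Perm.inv_eq_iff_eq]
    have := h.v3 0 (by omega) (by omega)
    rw [e0] at this
    exact this.symm
  have e2 : (uu T e)⁻¹ a = y := by
    rw [Perm.inv_eq_iff_eq, h.u1]
  rw [e1, e2, h.v1, h.u3 2 (by omega) (by omega)]

theorem Star.c3 (h : Star T e y a) : cc T e ((T ^ (2 : ℤ)) a) = y := by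
  rw [cc_apply]
  have e1 : (vv T e)⁻¹ ((T ^ (2 : ℤ)) a) = y := by
    rw [Perm.inv_eq_iff_eq, h.v1]
  have e2 : (uu T e)⁻¹ y = (T ^ (1 : ℤ)) a := by
    rw [Perm.inv_eq_iff_eq, h.u2]
  rw [e1, e2, h.v3 1 (by omega) (by omega), h.u2]

theorem Star.c4 (h : Star T e y a) (n : ℤ) (h0 : n ≠ 0) (h1 : n ≠ 1) (h2 : n ≠ 2) (h3 : n ≠ 3) :
    cc T e ((T ^ n) a) = (T ^ n) a := by
  rw [cc_apply]
  have e1 : (vv T e)⁻¹ ((T ^ n) a) = (T ^ n) a := by
    rw [Perm.inv_eq_iff_eq, h.v3 n h2 h3]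
  have e2 : (uu T e)⁻¹ ((T ^ n) a) = (T ^ n) a := by
    rw [Perm.inv_eq_iff_eq, h.u3 n h0 h1]
  rw [e1, e2, h.v3 n h2 h3, h.u3 n h0 h1]

/-- `T^(-4) c T^4` -/
def ww {Gr : Type*} [Group Gr] (T e : Gr) : Gr := T ^ (-4 : ℤ) * cc T e * T ^ (-(-4 : ℤ))

/-- the local 3-cycle of the chain -/
def dd {Gr : Type*} [Group Gr] (T e : Gr) : Gr := ww T e * cc T e * (ww T e)⁻¹

theorem dd_apply (T e : Perm X) (x : X) :
    dd T e x = ww T e (cc T e ((ww T e)⁻¹ x)) := by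
  rw [dd, Perm.mul_apply, Perm.mul_apply]

theorem Star.w1 (h : Star T e y a) :
    ww T e y = (T ^ (-4 : ℤ)) a := by
  rw [ww, conj_apply_fix h.hT, h.c1]

theorem Star.w2 (h : Star T e y a) :
    ww T e ((T ^ (-4 : ℤ)) a) = (T ^ (-2 : ℤ)) a := by
  rw [ww, conj_apply, show (-4 : ℤ) - (-4) = 0 by norm_num]
  rw [show (T ^ (0 : ℤ)) a = a by simp, h.c2, zpow_add_apply]
  norm_num

theorem Star.w4 (h : Star T e y a) (n : ℤ) (h0 : n ≠ -4) (h1 : n ≠ -3) (h2 : n ≠ -2)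
    (h3 : n ≠ -1) : ww T e ((T ^ n) a) = (T ^ n) a := by
  rw [ww, conj_apply, h.c4 (n - (-4)) (by omega) (by omega) (by omega) (by omega), zpow_add_apply]
  congr 2
  omega

theorem Star.d1 (h : Star T e y a) : dd T e ((T ^ (-4 : ℤ)) a) = a := by
  have e1 : (ww T e)⁻¹ ((T ^ (-4 : ℤ)) a) = y := by
    rw [Perm.inv_eq_iff_eq, h.w1]
  rw [dd_apply]
  rw [e1, h.c1]
  have := h.w4 0 (by omega) (by omega) (by omega) (by omega)
  simpa using this

theorem Star.d2 (h : Star T e y a) : dd T e a = (T ^ (2 : ℤ)) a := by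
  have e0 : (T ^ (0 : ℤ)) a = a := by simp
  have e1 : (ww T e)⁻¹ a = a := by
    rw [Perm.inv_eq_iff_eq]
    have := h.w4 0 (by omega) (by omega) (by omega) (by omega)
    rw [e0] at this
    exact this.symm
  rw [dd_apply]
  rw [e1, h.c2, h.w4 2 (by omega) (by omega) (by omega) (by omega)]

theorem Star.d3 (h : Star T e y a) : dd T e ((T ^ (2 : ℤ)) a) = (T ^ (-4 : ℤ)) a := by
  have e1 : (ww T e)⁻¹ ((T ^ (2 : ℤ)) a) = (T ^ (2 : ℤ)) a := by
    rw [Perm.inv_eq_iff_eq, h.w4 2 (by omega) (by omega) (by omega) (by omega)]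
  rw [dd_apply]
  rw [e1, h.c3, h.w1]

theorem Star.d4 (h : Star T e y a) (n : ℤ) (h0 : n ≠ 0) (h1 : n ≠ 1) (h2 : n ≠ 2) (h3 : n ≠ 3)
    (h4 : n ≠ -4) (h5 : n ≠ -3) (h6 : n ≠ -2) (h7 : n ≠ -1) :
    dd T e ((T ^ n) a) = (T ^ n) a := by
  have e1 : (ww T e)⁻¹ ((T ^ n) a) = (T ^ n) a := by
    rw [Perm.inv_eq_iff_eq, h.w4 n h4 h5 h6 h7]
  rw [dd_apply]
  rw [e1, h.c4 n h0 h1 h2 h3, h.w4 n h4 h5 h6 h7]

theorem Star.d5 (h : Star T e y a) : dd T e ((T ^ (-2 : ℤ)) a) = (T ^ (-2 : ℤ)) a := by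
  have e1 : (ww T e)⁻¹ ((T ^ (-2 : ℤ)) a) = (T ^ (-4 : ℤ)) a := by
    rw [Perm.inv_eq_iff_eq, h.w2]
  rw [dd_apply]
  rw [e1, h.c4 (-4) (by omega) (by omega) (by omega) (by omega), h.w2]

theorem pt4 (T : Perm X) (a : X) (j : ℤ) (s : Bool) :
    pt (T ^ (4 : ℤ)) a ((T ^ (2 : ℤ)) a) (j, s) = (T ^ (4 * j + if s then 2 else 0)) a := by
  cases s
  · simp only [pt, Bool.false_eq_true, if_false, add_zero]
    rw [← zpow_mul]
  · simp only [pt, if_true]
    rw [← zpow_mul, zpow_add_apply]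

/-- The chain obtained from a star. -/
theorem Star.chain (h : Star T e y a) :
    Chain (T ^ (4 : ℤ)) (dd T e) a ((T ^ (2 : ℤ)) a) where
  h1 := by
    have := h.d1
    rw [pt4, pt4]
    simpa using this
  h2 := by
    have := h.d2
    rw [pt4, pt4]
    simpa using this
  h3 := by
    have := h.d3
    rw [pt4, pt4]
    simpa using this
  ha := by
    intro j hj1 hj0
    rw [pt4]
    simp only [Bool.false_eq_true, if_false]
    exact h.d4 _ (by omega) (by omega) (by omega) (by omega) (by omega) (by omega) (by omega)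
      (by omega)
  hb := by
    intro j hj0
    rw [pt4]
    simp only [if_true]
    by_cases hj1 : j = -1
    · subst hj1
      have := h.d5
      simpa using this
    · exact h.d4 _ (by omega) (by omega) (by omega) (by omega) (by omega) (by omega) (by omega)
        (by omega)
  inj := by
    rintro ⟨i, s⟩ ⟨j, t⟩ hij
    rw [pt4, pt4] at hij
    have := h.inj hij
    cases s <;> cases t <;> simp only [Bool.false_eq_true, if_false, if_true] at this
    · congr 1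
      omega
    · omega
    · omega
    · congr 1
      omega

end Pool.Agent.PG
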