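import Mathlib

set_option autoImplicit false

/-!
Orbits of a subgroup generated step by step by elements that commute off a finite set, and
their intersections with the orbits (rows) of a normal subgroup `N`.
-/

namespace Pool.Agent.PG

open MulAction

variable {G X : Type*} [Group G] [MulAction G X]

/-- Every `K`-orbit meets every `N`-orbit in a finite set. -/
def RowFin (X : Type*) [MulAction G X] (N K : Subgroup G) : Prop :=
  ∀ w x' : X, {x : X | (∃ k ∈ K, x = k • w) ∧ x ∈ orbit N x'}.Finite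

/-- Covering of an orbit after adding one generator. -/
theorem step_cover (A : Set G) (g : G) (D : Set X)
    (hD : ∀ k ∈ A, ∀ x, x ∉ D → g • k • x = k • g • x) (w x : X)
    (hx : ∃ h ∈ Subgroup.closure (insert g A), x = h • w) :
    ∃ d ∈ insert w D, ∃ j : ℤ, ∃ k ∈ Subgroup.closure A, x = k • (g ^ j) • d := by
  set K := Subgroup.closure A with hK
  set E : Set X := {x | ∃ j : ℤ, (g ^ j) • x ∈ D} with hE
  have hEg : ∀ (j : ℤ) (x : X), x ∉ E → (g ^ j) • x ∉ E := by
    rintro j x hx ⟨i, hi⟩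
    apply hx
    refine ⟨i + j, ?_⟩
    rw [zpow_add, mul_smul]
    exact hi
  set U : Set X := {x | ∀ k ∈ K, k • x ∉ E} with hU
  have hUK : ∀ k ∈ K, ∀ x ∈ U, k • x ∈ U := by
    intro k hk x hx k' hk'
    rw [← mul_smul]
    exact hx _ (K.mul_mem hk' hk)
  have hUE : ∀ x ∈ U, x ∉ E := by
    intro x hx
    have := hx 1 K.one_mem
    rwa [one_smul] at this
  -- commuting of an element `h` with `K` on `U`
  have hcom : ∀ h : G, (∀ k ∈ A, ∀ x, x ∉ E → h • k • x = k • h • x) →
      ∀ k ∈ K, ∀ x ∈ U, h • k • x = k • h • x := by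
    intro h hh k hk
    induction hk using Subgroup.closure_induction with
    | mem k hk => exact fun x hx => hh k hk x (hUE x hx)
    | one => intro x _; rw [one_smul, one_smul]
    | mul k1 k2 _ hk2 ih1 ih2 =>
      intro x hx
      rw [mul_smul, ih1 _ (hUK k2 hk2 x hx), ih2 x hx, mul_smul]
    | inv k hk ih =>
      intro x hx
      have h1 := ih _ (hUK k⁻¹ (K.inv_mem hk) x hx)
      rw [smul_inv_smul] at h1
      rw [h1, inv_smul_smul]
  have hgE : ∀ k ∈ A, ∀ x, x ∉ E → g • k • x = k • g • x := by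
    intro k hk x hx
    apply hD k hk
    intro hxD
    apply hx
    exact ⟨0, by simpa using hxD⟩
  have hgE' : ∀ k ∈ A, ∀ x, x ∉ E → g⁻¹ • k • x = k • g⁻¹ • x := by
    intro k hk x hx
    have h1 := hD k hk (g⁻¹ • x) (by
      intro hxD
      apply hx
      exact ⟨-1, by simpa using hxD⟩)
    rw [smul_inv_smul] at h1
    rw [← h1, inv_smul_smul]
  have c1 := hcom g hgE
  have c2 := hcom g⁻¹ hgE'
  have hgU : ∀ x ∈ U, g • x ∈ U := by
    intro x hx k hk
    rw [← c1 k hk x hx]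
    have := hEg 1 _ (hx k hk)
    rwa [zpow_one] at this
  have hgU' : ∀ x ∈ U, g⁻¹ • x ∈ U := by
    intro x hx k hk
    rw [← c2 k hk x hx]
    have := hEg (-1) _ (hx k hk)
    rwa [zpow_neg, zpow_one] at this
  obtain ⟨h, hh, rfl⟩ := hx
  by_cases hw : w ∈ U
  · -- the orbit is covered by the translates of `w`
    set V : Set X := {x | ∃ j : ℤ, ∃ k ∈ K, x = k • (g ^ j) • w} with hV
    have hjU : ∀ j : ℤ, (g ^ j) • w ∈ U := by
      intro j
      induction j using Int.induction_on with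
      | zero => simpa using hw
      | succ i ih =>
        rw [add_comm, zpow_one_add, mul_smul]
        exact hgU _ ih
      | pred i ih =>
        rw [sub_eq_neg_add, zpow_add, mul_smul, zpow_neg, zpow_one]
        exact hgU' _ ih
    have hKV : ∀ k ∈ K, ∀ x ∈ V, k • x ∈ V := by
      rintro k hk x ⟨j, k', hk', rfl⟩
      exact ⟨j, k * k', K.mul_mem hk hk', by rw [mul_smul]⟩
    have hgV : ∀ x ∈ V, g • x ∈ V := by
      rintro x ⟨j, k, hk, rfl⟩
      refine ⟨1 + j, k, hk, ?_⟩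
      rw [c1 k hk _ (hjU j), zpow_one_add, mul_smul]
    have hgV' : ∀ x ∈ V, g⁻¹ • x ∈ V := by
      rintro x ⟨j, k, hk, rfl⟩
      refine ⟨-1 + j, k, hk, ?_⟩
      rw [c2 k hk _ (hjU j), zpow_add, mul_smul, zpow_neg, zpow_one]
    have hall : ∀ x, x ∈ V ↔ h • x ∈ V := by
      induction hh using Subgroup.closure_induction with
      | mem k hk =>
        rcases hk with rfl | hk
        · intro x
          refine ⟨hgV x, fun hx => ?_⟩
          have := hgV' _ hx
          rwa [inv_smul_smul] at this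
        · have hk' : k ∈ K := Subgroup.subset_closure hk
          intro x
          refine ⟨hKV k hk' x, fun hx => ?_⟩
          have := hKV k⁻¹ (K.inv_mem hk') _ hx
          rwa [inv_smul_smul] at this
      | one => intro x; rw [one_smul]
      | mul a b _ _ iha ihb =>
        intro x
        rw [ihb x, iha (b • x), mul_smul]
      | inv a _ iha =>
        intro x
        have := iha (a⁻¹ • x)
        rw [smul_inv_smul] at this
        exact this.symm
    obtain ⟨j, k, hk, hx⟩ := (hall w).1 ⟨0, 1, K.one_mem, by simp⟩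
    exact ⟨w, Set.mem_insert _ _, j, k, hk, hx⟩
  · -- the orbit avoids `U`
    have hall : ∀ x, x ∈ U ↔ h • x ∈ U := by
      induction hh using Subgroup.closure_induction with
      | mem k hk =>
        rcases hk with rfl | hk
        · intro x
          refine ⟨hgU x, fun hx => ?_⟩
          have := hgU' _ hx
          rwa [inv_smul_smul] at this
        · have hk' : k ∈ K := Subgroup.subset_closure hk
          intro x
          refine ⟨hUK k hk' x, fun hx => ?_⟩
          have := hUK k⁻¹ (K.inv_mem hk') _ hx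
          rwa [inv_smul_smul] at this
      | one => intro x; rw [one_smul]
      | mul a b _ _ iha ihb =>
        intro x
        rw [ihb x, iha (b • x), mul_smul]
      | inv a _ iha =>
        intro x
        have := iha (a⁻¹ • x)
        rw [smul_inv_smul] at this
        exact this.symm
    have hx : h • w ∉ U := fun hx => hw ((hall w).2 hx)
    have hx2 : ∃ k ∈ K, k • h • w ∈ E := by
      by_contra hne
      push Not at hne
      exact hx hne
    obtain ⟨k, hk, j, hj⟩ := hx2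
    refine ⟨_, Set.mem_insert_of_mem _ hj, -j, k⁻¹, K.inv_mem hk, ?_⟩
    rw [← mul_smul (g ^ (-j)), ← zpow_add, neg_add_cancel, zpow_zero, one_smul, inv_smul_smul]

theorem step (N : Subgroup G) (A : Set G) (g : G) (D : Set X) (hDfin : D.Finite)
    (hD : ∀ k ∈ A, ∀ x, x ∉ D → g • k • x = k • g • x)
    (h3 : ∀ d x' : X, {x : X | (∃ j : ℤ, ∃ k ∈ Subgroup.closure A, x = k • (g ^ j) • d) ∧
      x ∈ orbit N x'}.Finite) :
    RowFin X N (Subgroup.closure (insert g A)) := by
  intro w x'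
  refine ((hDfin.insert w).biUnion (fun d _ => h3 d x')).subset ?_
  rintro x ⟨hx1, hx2⟩
  obtain ⟨d, hd, j, k, hk, hx⟩ := step_cover A g D hD w x hx1
  exact Set.mem_biUnion hd ⟨⟨j, k, hk, hx⟩, hx2⟩

theorem case_finorb {N K : Subgroup G} (hP : RowFin X N K) (g : G)
    (hg : ∀ d : X, (Set.range (fun j : ℤ => (g ^ j) • d)).Finite) (d x' : X) :
    {x : X | (∃ j : ℤ, ∃ k ∈ K, x = k • (g ^ j) • d) ∧ x ∈ orbit N x'}.Finite := by
  refine ((hg d).biUnion (fun z _ => hP z x')).subset ?_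
  rintro x ⟨⟨j, k, hk, hx⟩, hx2⟩
  exact Set.mem_biUnion (Set.mem_range_self j) ⟨⟨k, hk, hx⟩, hx2⟩

theorem case_pow {N K : Subgroup G} (hP : RowFin X N K) (g : G) (a : ℕ) (ha : 0 < a)
    (hga : g ^ a ∈ K) (d x' : X) :
    {x : X | (∃ j : ℤ, ∃ k ∈ K, x = k • (g ^ j) • d) ∧ x ∈ orbit N x'}.Finite := by
  refine ((Set.finite_Iio a).biUnion (fun (r : ℕ) _ => hP (g ^ r • d) x')).subset ?_
  rintro x ⟨⟨j, k, hk, hx⟩, hx2⟩
  have hr0 : 0 ≤ j % (a : ℤ) := Int.emod_nonneg _ (by omega)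
  have hr1 : j % (a : ℤ) < a := Int.emod_lt_of_pos _ (by omega)
  refine Set.mem_biUnion (x := (j % (a : ℤ)).toNat) ?_ ⟨⟨k * (g ^ a) ^ (j / (a : ℤ)), ?_, ?_⟩, hx2⟩
  · simp only [Set.mem_Iio]
    omega
  · exact K.mul_mem hk (K.zpow_mem hga _)
  · rw [hx, mul_smul, ← mul_smul ((g ^ a) ^ (j / (a : ℤ)))]
    congr 2
    rw [← zpow_natCast g a, ← zpow_mul, ← zpow_natCast g ((j % (a : ℤ)).toNat), ← zpow_add]
    congr 1
    rw [Int.toNat_of_nonneg hr0]
    exact (Int.mul_ediv_add_emod j a).symm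

/-- The row stabilizers. -/
def rowStab (X : Type*) [MulAction G X] (N : Subgroup G) : Set G := {σ | ∀ x : X, σ • x ∈ orbit N x}

theorem case_free {N K : Subgroup G} [hN : N.Normal] (hP : RowFin X N K) (g : G)
    (hS : ∀ (σ : G) (x : X), σ • x ∈ orbit N x → σ ∈ rowStab X N)
    (hfree : ¬ ∃ a : ℕ, 0 < a ∧ ∃ k ∈ K, ∃ σ ∈ rowStab X N, g ^ a = k * σ) (d x' : X) :
    {x : X | (∃ j : ℤ, ∃ k ∈ K, x = k • (g ^ j) • d) ∧ x ∈ orbit N x'}.Finite := by
  -- conjugates of row stabilizing elements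
  have hconj : ∀ (h σ : G), σ ∈ rowStab X N → h * σ * h⁻¹ ∈ rowStab X N := by
    intro h σ hσ x
    obtain ⟨n, hn⟩ := hσ (h⁻¹ • x)
    refine ⟨⟨h * n * h⁻¹, hN.conj_mem _ n.2 h⟩, ?_⟩
    have hn' : (n : G) • h⁻¹ • x = σ • h⁻¹ • x := hn
    change (h * (n : G) * h⁻¹) • x = (h * σ * h⁻¹) • x
    rw [mul_smul, mul_smul, hn', mul_smul, mul_smul]
  have key : ∀ (i j : ℤ) (k k' : G), k ∈ K → k' ∈ K → i < j → k • (g ^ i) • d ∈ orbit N x' →
      k' • (g ^ j) • d ∈ orbit N x' → False := by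
    intro i j k k' hk hk' hij h1 h2
    apply hfree
    obtain ⟨a, ha⟩ : ∃ a : ℕ, j = i + a := ⟨(j - i).toNat, by omega⟩
    have ha0 : 0 < a := by omega
    have h3 : k' • (g ^ j) • d ∈ orbit N (k • (g ^ i) • d) := by
      rw [orbit_eq_iff.mpr h1]
      exact h2
    have h4 : (k' * g ^ a * k⁻¹) • (k • (g ^ i) • d) = k' • (g ^ j) • d := by
      rw [mul_smul, mul_smul, inv_smul_smul, ha, add_comm, zpow_add, mul_smul, zpow_natCast]
    rw [← h4] at h3
    have h5 := hS _ _ h3
    have h6 := hconj k'⁻¹ _ h5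
    -- `g^a k⁻¹ k'` is row stabilizing
    have h7 := hconj (k'⁻¹ * k)⁻¹ _ h6
    refine ⟨a, ha0, k'⁻¹ * k, K.mul_mem (K.inv_mem hk') hk, _, h7, ?_⟩
    group
  by_cases hex : ∃ j : ℤ, ∃ k ∈ K, k • (g ^ j) • d ∈ orbit N x'
  · obtain ⟨j, k, hk, hj⟩ := hex
    refine (hP ((g ^ j) • d) x').subset ?_
    rintro x ⟨⟨i, k', hk', hx⟩, hx2⟩
    rcases lt_trichotomy i j with h | h | h
    · exfalso
      rw [hx] at hx2
      exact key i j k' k hk' hk h hx2 hj
    · subst h
      exact ⟨⟨k', hk', hx⟩, hx2⟩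
    · exfalso
      rw [hx] at hx2
      exact key j i k k' hk hk' h hj hx2
  · have : {x : X | (∃ j : ℤ, ∃ k ∈ K, x = k • (g ^ j) • d) ∧ x ∈ orbit N x'} = ∅ := by
      refine Set.eq_empty_iff_forall_notMem.2 ?_
      rintro x ⟨⟨i, k', hk', hx⟩, hx2⟩
      rw [hx] at hx2
      exact hex ⟨i, k', hk', hx2⟩
    rw [this]
    exact Set.finite_empty

end Pool.Agent.PG
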